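import Mathlib
import Pool.Agent.Q240.KS.Stm2

/-!
# Poor points: counting, and passage to longer intervals

`Poor c θ y`: the interval `(y, y + y ^ θ]` contains fewer than `c y ^ θ / log y` primes. From the counting statement
`MAINP` of the starting library for windows `|log y - Y| ≤ 2 / 5` with a common length we obtain the bound for the number
of poor points below `X`, with the length `y ^ θ`.
-/

set_option autoImplicit false

namespace Pool.Agent.U766.OP

open Finset Filter Pool.Agent.Q240.KS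

lemma pic_add {a h1 h2 : ℝ} (hh1 : 0 ≤ h1) (hh2 : 0 ≤ h2) :
    pic a (h1 + h2) = pic a h1 + pic (a + h1) h2 := by
  unfold pic
  rw [← card_union_of_disjoint]
  · congr 1
    have e : a + h1 + h2 = a + (h1 + h2) := by ring
    rw [e]
    have h3 : ⌊a⌋₊ ≤ ⌊a + h1⌋₊ := Nat.floor_mono (by linarith)
    have h4 : ⌊a + h1⌋₊ ≤ ⌊a + (h1 + h2)⌋₊ := Nat.floor_mono (by linarith)
    rw [← filter_union, Ioc_union_Ioc_eq_Ioc h3 h4]
  · rw [disjoint_left]
    intro p hp hp'
    rw [mem_filter, mem_Ioc] at hp hp'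
    omega

lemma pic_mono {a h h' : ℝ} (hh : h ≤ h') : pic a h ≤ pic a h' := by
  unfold pic
  apply card_le_card
  apply filter_subset_filter
  apply Ioc_subset_Ioc_right
  exact Nat.floor_mono (by linarith)

lemma blocks {a ℓ t : ℝ} (hℓ : 0 ≤ ℓ) (k : ℕ) (h : ∀ i < k, t ≤ (pic (a + i * ℓ) ℓ : ℝ)) :
    k * t ≤ (pic a (k * ℓ) : ℝ) := by
  induction k with
  | zero => simp
  | succ k ih =>
    have h1 := ih (fun i hi => h i (by omega))
    have h2 := h k (by omega)
    have e : ((k + 1 : ℕ) : ℝ) * ℓ = k * ℓ + ℓ := by push_cast; ring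
    rw [e, pic_add (by positivity) hℓ]
    push_cast
    linarith

/-- the interval `(y, y + y ^ θ]` contains few primes -/
def Poor (c θ y : ℝ) : Prop := (pic y (y ^ θ) : ℝ) < c * y ^ θ / Real.log y

/-- A long interval with few primes contains a poor point. -/
theorem exists_poor {c θ : ℝ} (hc : 0 < c) (hθ0 : 0 < θ) (hθ1 : θ ≤ 1) {x a H : ℝ} (hx : 4 ≤ x) (ha : x ≤ a)
    (haH : a + H ≤ 4 * x) (hH : (4 * x) ^ θ ≤ H) (hp : (pic a H : ℝ) < c / 16 * H / Real.log x) :
    ∃ y : ℝ, a ≤ y ∧ y + y ^ θ ≤ a + H ∧ Poor c θ y := by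
  by_contra hcon
  push Not at hcon
  set ℓ : ℝ := (4 * x) ^ θ with hℓ
  have hx0 : 0 < x := by linarith
  have hℓ0 : 0 < ℓ := Real.rpow_pos_of_pos (by linarith) _
  have hH0 : 0 < H := lt_of_lt_of_le hℓ0 hH
  set k : ℕ := ⌊H / ℓ⌋₊ with hk
  have hk1 : (k : ℝ) * ℓ ≤ H := by
    have := Nat.floor_le (show 0 ≤ H / ℓ by positivity)
    rw [← hk] at this
    rwa [le_div_iff₀ hℓ0] at this
  have hdiv : 1 ≤ H / ℓ := by rwa [le_div_iff₀ hℓ0, one_mul]
  have hk2 : H / ℓ ≤ 2 * k := by
    have h1 := Nat.lt_floor_add_one (H / ℓ)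
    rw [← hk] at h1
    have h2 : (1 : ℝ) ≤ k := by
      have : 1 ≤ k := by
        rw [hk]
        exact Nat.le_floor (by exact_mod_cast hdiv)
      exact_mod_cast this
    linarith
  have hlx : 1 < Real.log x := by
    have h1 : Real.log 4 ≤ Real.log x := Real.log_le_log (by norm_num) hx
    have h2 : Real.log 4 = 2 * Real.log 2 := by
      rw [show (4 : ℝ) = 2 ^ 2 by norm_num, Real.log_pow]; norm_num
    have := Real.log_two_gt_d9
    linarith
  have hl4 : Real.log (4 * x) ≤ 2 * Real.log x := by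
    rw [Real.log_mul (by norm_num) hx0.ne']
    have h1 : Real.log 4 ≤ Real.log x := Real.log_le_log (by norm_num) hx
    linarith
  have hmain : (k : ℝ) * (c * ℓ / (8 * Real.log x)) ≤ (pic a (k * ℓ) : ℝ) := by
    apply blocks hℓ0.le
    intro i hi
    have hi' : (i : ℝ) + 1 ≤ k := by exact_mod_cast hi
    set y : ℝ := a + i * ℓ with hy
    have hya : a ≤ y := by
      rw [hy]
      have : 0 ≤ (i : ℝ) * ℓ := by positivity
      linarith
    have hyt : y + ℓ ≤ a + H := by
      have h1 : (i + 1 : ℝ) * ℓ ≤ k * ℓ := by gcongr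
      have h2 : y + ℓ = a + (i + 1) * ℓ := by rw [hy]; ring
      rw [h2]
      linarith
    have hy0 : 0 < y := by linarith
    have hy4 : y ≤ 4 * x := by linarith
    have hyθ : y ^ θ ≤ ℓ := Real.rpow_le_rpow hy0.le hy4 hθ0.le
    have h1 := hcon y hya (by linarith)
    unfold Poor at h1
    rw [not_lt] at h1
    have h2 : ((pic y (y ^ θ) : ℕ) : ℝ) ≤ pic y ℓ := by exact_mod_cast pic_mono hyθ
    refine le_trans ?_ (h1.trans h2)
    have hly : 0 < Real.log y := by
      apply Real.log_pos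
      linarith
    have hly2 : Real.log y ≤ 2 * Real.log x := (Real.log_le_log hy0 hy4).trans hl4
    have hℓy : ℓ / 4 ≤ y ^ θ := by
      have h3 : ℓ = 4 ^ θ * x ^ θ := by rw [hℓ, Real.mul_rpow (by norm_num) hx0.le]
      have h4 : (4 : ℝ) ^ θ ≤ 4 := by
        calc (4 : ℝ) ^ θ ≤ 4 ^ (1 : ℝ) := Real.rpow_le_rpow_of_exponent_le (by norm_num) hθ1
          _ = 4 := Real.rpow_one 4
      have h5 : x ^ θ ≤ y ^ θ := Real.rpow_le_rpow hx0.le (by linarith) hθ0.le
      have h6 : 0 < x ^ θ := Real.rpow_pos_of_pos hx0 _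
      rw [h3]
      nlinarith
    rw [div_le_div_iff₀ (by positivity) hly]
    calc c * ℓ * Real.log y ≤ c * ℓ * (2 * Real.log x) := by gcongr
      _ = c * (ℓ / 4) * (8 * Real.log x) := by ring
      _ ≤ c * y ^ θ * (8 * Real.log x) := by gcongr
  have h2 : ((pic a (k * ℓ) : ℕ) : ℝ) ≤ pic a H := by exact_mod_cast pic_mono hk1
  have h3 : c / 16 * H / Real.log x ≤ (k : ℝ) * (c * ℓ / (8 * Real.log x)) := by
    have h4 : H ≤ 2 * k * ℓ := by rwa [div_le_iff₀ hℓ0] at hk2
    have e : (k : ℝ) * (c * ℓ / (8 * Real.log x)) = c / 16 * (2 * k * ℓ) / Real.log x := by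
      field_simp
      ring
    rw [e]
    gcongr
  linarith

/-- **The number of separated poor points.** -/
theorem count_poor {lam0 e0 : ℝ} (hM : MAINP lam0 e0) (hl0 : 0.2 ≤ lam0) (hl1 : lam0 ≤ 0.9) (he0 : 0.01 ≤ e0)
    (he1 : e0 ≤ 1) :
    ∃ c η C : ℝ, 0 < c ∧ 0 < η ∧ η ≤ 0.01 ∧ 0 < C ∧ ∀ X : ℝ, 1 ≤ X → ∀ U : Finset ℝ,
      (∀ y ∈ U, 2 ≤ y ∧ y ≤ X ∧ Poor c (1 - lam0 - η) y) →
      (∀ y ∈ U, ∀ y' ∈ U, y < y' → y + y ^ (1 - lam0 - η) ≤ y') →
      (U.card : ℝ) ≤ C * X ^ (e0 - η) := by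
  classical
  obtain ⟨c0, η0, Y0, hc0, hη0, hm⟩ := hM
  set η1 : ℝ := min η0 0.01 with hη1
  have hη1p : 0 < η1 := lt_min hη0 (by norm_num)
  have hη1a : η1 ≤ η0 := min_le_left _ _
  have hη1b : η1 ≤ 0.01 := min_le_right _ _
  set η : ℝ := η1 / 2 with hη
  set θ : ℝ := 1 - lam0 - η with hθ
  have hθ0 : 0 < θ := by rw [hθ, hη]; linarith
  have hθ1 : θ ≤ 0.8 := by rw [hθ, hη]; linarith
  -- large Y
  have hev : ∀ᶠ Y : ℝ in atTop, Y0 ≤ Y ∧ 10 ≤ Y ∧ 4 * Real.exp ((1 - lam0 - η1) * Y) ≤ Real.exp (θ * (Y - 1 / 10)) ∧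
      Real.exp ((0.8 - 1) * (Y - 1 / 10)) ≤ 1 / 10 := by
    have t1 : Tendsto (fun Y : ℝ => Real.exp (η * Y - θ / 10)) atTop atTop := by
      apply Real.tendsto_exp_atTop.comp
      apply tendsto_atTop_add_const_right
      exact tendsto_id.const_mul_atTop (by positivity)
    have t2 : Tendsto (fun Y : ℝ => Real.exp ((0.8 - 1) * (Y - 1 / 10))) atTop (nhds 0) := by
      apply Real.tendsto_exp_atBot.comp
      apply Tendsto.const_mul_atTop_of_neg (by norm_num)
      exact tendsto_atTop_add_const_right _ _ tendsto_id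
    filter_upwards [eventually_ge_atTop Y0, eventually_ge_atTop 10, t1.eventually_ge_atTop 4,
      t2.eventually (ge_mem_nhds (by norm_num : (0 : ℝ) < 1 / 10))] with Y h1 h2 h3 h4
    refine ⟨h1, h2, ?_, h4⟩
    calc 4 * Real.exp ((1 - lam0 - η1) * Y) ≤ Real.exp (η * Y - θ / 10) * Real.exp ((1 - lam0 - η1) * Y) := by gcongr
      _ = Real.exp (θ * (Y - 1 / 10)) := by
          rw [← Real.exp_add]
          congr 1
          rw [hθ, hη]
          ring
  obtain ⟨Y1, hY1⟩ := eventually_atTop.1 hev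
  set Y2 : ℝ := max Y1 1 with hY2
  -- the bound in one window
  have hwin : ∀ (Y : ℝ), Y2 ≤ Y → ∀ V : Finset ℝ, (∀ y ∈ V, 2 ≤ y ∧ |Real.log y - Y| ≤ 1 / 10 ∧ Poor (c0 / 8) θ y) →
      (∀ y ∈ V, ∀ y' ∈ V, y < y' → y + y ^ θ ≤ y') → (V.card : ℝ) ≤ Real.exp ((e0 - η1) * Y) := by
    intro Y hY V hV hsep
    obtain ⟨b1, b2, b3, b4⟩ := hY1 Y ((le_max_left _ _).trans hY)
    set h : ℝ := Real.exp ((1 - lam0 - η1) * Y) with hh
    have hh0 : 0 < h := Real.exp_pos _
    have hYpos : 0 < Y := by linarith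
    -- basic facts on y
    have hfacts : ∀ y ∈ V, 0 < y ∧ 4 * h ≤ y ^ θ ∧ y ^ θ ≤ y / 10 ∧ Y / 2 ≤ Real.log y := by
      intro y hy
      obtain ⟨a1, a2, a3⟩ := hV y hy
      have hy0 : 0 < y := by linarith
      rw [abs_le] at a2
      refine ⟨hy0, ?_, ?_, by linarith⟩
      · refine b3.trans ?_
        rw [Real.rpow_def_of_pos hy0, Real.exp_le_exp, mul_comm (Real.log y)]
        apply mul_le_mul_of_nonneg_left _ hθ0.le
        linarith
      · have e1 : y ^ θ = y * y ^ (θ - 1) := by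
          rw [Real.rpow_sub_one hy0.ne']; field_simp
        have e2 : y ^ (θ - 1) ≤ 1 / 10 := by
          refine le_trans ?_ b4
          rw [Real.rpow_def_of_pos hy0, Real.exp_le_exp]
          have h1 : Y - 1 / 10 ≤ Real.log y := by linarith
          have h2 : θ - 1 ≤ 0.8 - 1 := by linarith
          have h3 : 0 ≤ Y - 1 / 10 := by linarith
          nlinarith
        rw [e1]
        nlinarith
    -- a poor block
    have hex : ∀ y ∈ V, ∃ z : ℝ, y ≤ z ∧ z + h ≤ y + y ^ θ ∧ (pic z h : ℝ) < c0 * h / Y := by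
      intro y hy
      obtain ⟨hy0, f1, f2, f3⟩ := hfacts y hy
      obtain ⟨a1, a2, a3⟩ := hV y hy
      by_contra hcon
      push Not at hcon
      set k : ℕ := ⌊y ^ θ / h⌋₊ with hk
      have hk1 : (k : ℝ) * h ≤ y ^ θ := by
        have := Nat.floor_le (show 0 ≤ y ^ θ / h by positivity)
        rw [← hk] at this
        rwa [le_div_iff₀ hh0] at this
      have hk2 : y ^ θ ≤ 2 * k * h := by
        have h1 := Nat.lt_floor_add_one (y ^ θ / h)
        rw [← hk, div_lt_iff₀ hh0] at h1
        nlinarith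
      have h1 : (k : ℝ) * (c0 * h / Y) ≤ (pic y (k * h) : ℝ) := by
        apply blocks hh0.le
        intro i hi
        have hi' : (i : ℝ) + 1 ≤ k := by exact_mod_cast hi
        apply hcon
        · have : 0 ≤ (i : ℝ) * h := by positivity
          linarith
        · have h2 : (i + 1 : ℝ) * h ≤ k * h := by gcongr
          have h3 : y + i * h + h = y + (i + 1) * h := by ring
          rw [h3]
          linarith
      have h2 : ((pic y (k * h) : ℕ) : ℝ) ≤ pic y (y ^ θ) := by exact_mod_cast pic_mono hk1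
      unfold Poor at a3
      have h4 : c0 / 8 * y ^ θ / Real.log y ≤ (k : ℝ) * (c0 * h / Y) := by
        have hl : 0 < Real.log y := by linarith
        have e : (k : ℝ) * (c0 * h / Y) = (c0 / 8 * (2 * k * h)) * (4 / Y) := by field_simp; ring
        rw [e, div_eq_mul_inv]
        have h5 : (Real.log y)⁻¹ ≤ 4 / Y := by
          rw [inv_eq_one_div, div_le_div_iff₀ hl hYpos]
          linarith
        gcongr
      linarith
    choose! z hz1 hz2 hz3 using hex
    have hzs : ∀ y ∈ V, ∀ y' ∈ V, y < y' → z y + h ≤ z y' := fun y hy y' hy' hlt =>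
      (hz2 y hy).trans ((hsep y hy y' hy' hlt).trans (hz1 y' hy'))
    have hinj : Set.InjOn z V := by
      intro y hy y' hy' he
      rcases lt_trichotomy y y' with hlt | heq | hlt
      · have := hzs y hy y' hy' hlt
        linarith
      · exact heq
      · have := hzs y' hy' y hy hlt
        linarith
    have hcard : (V.image z).card = V.card := card_image_of_injOn hinj
    rw [← hcard]
    refine (hm Y b1 h ?_ ?_ (V.image z) ?_ ?_).trans ?_
    · rw [hh, Real.exp_le_exp]
      have : 1 - lam0 - η0 ≤ 1 - lam0 - η1 := by linarith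
      nlinarith
    · rw [hh, Real.exp_le_exp]
      nlinarith
    · intro w hw
      rw [mem_image] at hw
      obtain ⟨y, hy, rfl⟩ := hw
      obtain ⟨hy0, f1, f2, f3⟩ := hfacts y hy
      obtain ⟨a1, a2, a3⟩ := hV y hy
      have g1 := hz1 y hy
      have g2 : z y ≤ y * (11 / 10) := by
        have := hz2 y hy
        linarith
      have hz0 : 0 < z y := by linarith
      refine ⟨hz0, ?_, hz3 y hy⟩
      rw [abs_le] at a2 ⊢
      have g3 : Real.log y ≤ Real.log (z y) := Real.log_le_log hy0 g1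
      have g4 : Real.log (z y) ≤ Real.log y + 1 / 10 := by
        refine (Real.log_le_log hz0 g2).trans ?_
        rw [Real.log_mul hy0.ne' (by norm_num)]
        have : Real.log (11 / 10) ≤ 11 / 10 - 1 := Real.log_le_sub_one_of_pos (by norm_num)
        linarith
      constructor <;> linarith
    · intro w hw w' hw' hne
      rw [mem_image] at hw hw'
      obtain ⟨y, hy, rfl⟩ := hw
      obtain ⟨y', hy', rfl⟩ := hw'
      have hne' : y ≠ y' := fun e => hne (by rw [e])
      rcases lt_or_gt_of_ne hne' with hlt | hlt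
      · have := hzs y hy y' hy' hlt
        rw [abs_sub_comm, abs_of_nonneg (by linarith)]
        linarith
      · have := hzs y' hy' y hy hlt
        rw [abs_of_nonneg (by linarith)]
        linarith
    · rw [Real.exp_le_exp]
      nlinarith
  -- small points
  have hsmall : ∀ V : Finset ℝ, (∀ y ∈ V, 2 ≤ y ∧ y ≤ Real.exp (Y2 + 1)) →
      (∀ y ∈ V, ∀ y' ∈ V, y < y' → y + y ^ θ ≤ y') → (V.card : ℝ) ≤ Real.exp (Y2 + 1) + 1 := by
    intro V hV hsep
    have hinj : Set.InjOn (fun y : ℝ => ⌊y⌋₊) V := by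
      have key : ∀ y ∈ V, ∀ y' ∈ V, y < y' → ⌊y⌋₊ < ⌊y'⌋₊ := by
        intro y hy y' hy' hlt
        have h1 := hsep y hy y' hy' hlt
        have h2 : (1 : ℝ) ≤ y ^ θ := Real.one_le_rpow (by linarith [(hV y hy).1]) hθ0.le
        have h3 : y + 1 ≤ y' := by linarith
        have h4 : ⌊y⌋₊ + 1 = ⌊y + 1⌋₊ := (Nat.floor_add_one (by linarith [(hV y hy).1])).symm
        have h5 := Nat.floor_mono h3
        omega
      intro y hy y' hy' he
      simp only at he
      rcases lt_trichotomy y y' with hlt | heq | hlt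
      · have := key y hy y' hy' hlt
        omega
      · exact heq
      · have := key y' hy' y hy hlt
        omega
    have h1 : V.card ≤ (range (⌊Real.exp (Y2 + 1)⌋₊ + 1)).card := by
      apply card_le_card_of_injOn _ _ hinj
      intro y hy
      rw [Finset.mem_coe, mem_range, Nat.lt_succ_iff]
      exact Nat.floor_mono (hV y hy).2
    rw [card_range] at h1
    have h2 : (V.card : ℝ) ≤ (⌊Real.exp (Y2 + 1)⌋₊ : ℝ) + 1 := by exact_mod_cast h1
    have h3 := Nat.floor_le (Real.exp_pos (Y2 + 1)).le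
    linarith
  -- constants
  obtain ⟨K, hK⟩ : ∃ K : ℝ, ∀ X : ℝ, 1 ≤ X → 5 * Real.log X + 1 ≤ K * X ^ η := by
    refine ⟨5 / η + 1, fun X hX => ?_⟩
    have h1 : Real.log X ≤ X ^ η / η := Real.log_le_rpow_div (by linarith) (by positivity)
    have h2 : 1 ≤ X ^ η := Real.one_le_rpow hX (by positivity)
    have e : (5 / η + 1) * X ^ η = 5 * (X ^ η / η) + X ^ η := by ring
    rw [e]
    linarith
  have hK0 : 0 < K := by
    have := hK 1 le_rfl
    rw [Real.log_one, Real.one_rpow] at this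
    linarith
  set D : ℝ := Real.exp (Y2 + 1) + 1 + Real.exp 1 with hD
  have hD0 : 0 < D := by positivity
  refine ⟨c0 / 8, η, D * K, by positivity, by positivity, by linarith, by positivity, fun X hX U hU hsep => ?_⟩
  have hX0 : 0 < X := by linarith
  set j : ℝ → ℕ := fun y => ⌊5 * Real.log y⌋₊ with hj
  have hlogU : ∀ y ∈ U, 0 ≤ Real.log y ∧ Real.log y ≤ Real.log X := by
    intro y hy
    obtain ⟨a1, a2, -⟩ := hU y hy
    exact ⟨Real.log_nonneg (by linarith), Real.log_le_log (by linarith) a2⟩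
  have hfib : ∀ i ∈ U.image j, ((U.filter (fun y => j y = i)).card : ℝ) ≤ D * X ^ (e0 - η1) := by
    intro i hi
    have hone : 1 ≤ X ^ (e0 - η1) := Real.one_le_rpow hX (by linarith)
    rw [mem_image] at hi
    obtain ⟨y0, hy0, hy0i⟩ := hi
    set Y : ℝ := ((i : ℝ) + 1 / 2) / 5 with hY
    have hlog : ∀ y ∈ U.filter (fun y => j y = i), |Real.log y - Y| ≤ 1 / 10 := by
      intro y hy
      rw [mem_filter] at hy
      obtain ⟨hy1, hy2⟩ := hy
      have h1 := Nat.floor_le (show 0 ≤ 5 * Real.log y by linarith [(hlogU y hy1).1])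
      have h2 := Nat.lt_floor_add_one (5 * Real.log y)
      rw [hj] at hy2
      simp only at hy2
      rw [hy2] at h1 h2
      rw [abs_le, hY]
      constructor <;> linarith
    have hYX : Y ≤ Real.log X + 1 / 10 := by
      have h1 := hlog y0 (mem_filter.2 ⟨hy0, hy0i⟩)
      rw [abs_le] at h1
      linarith [(hlogU y0 hy0).2]
    by_cases hYY : Y2 ≤ Y
    · refine (hwin Y hYY _ (fun y hy => ?_) (fun y hy y' hy' hlt => ?_)).trans ?_
      · have h1 := (mem_filter.1 hy).1
        exact ⟨(hU y h1).1, hlog y hy, (hU y h1).2.2⟩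
      · exact hsep y (mem_filter.1 hy).1 y' (mem_filter.1 hy').1 hlt
      · calc Real.exp ((e0 - η1) * Y) ≤ Real.exp (1 + Real.log X * (e0 - η1)) := by
              rw [Real.exp_le_exp]
              have h1 : (e0 - η1) * Y ≤ (e0 - η1) * (Real.log X + 1 / 10) :=
                mul_le_mul_of_nonneg_left hYX (by linarith)
              nlinarith
          _ = Real.exp 1 * X ^ (e0 - η1) := by rw [Real.exp_add, Real.rpow_def_of_pos hX0]
          _ ≤ D * X ^ (e0 - η1) := by
              have h5 : Real.exp 1 ≤ D := by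
                rw [hD]
                have := Real.exp_pos (Y2 + 1)
                linarith
              gcongr
    · push Not at hYY
      refine (hsmall _ (fun y hy => ?_) (fun y hy y' hy' hlt => ?_)).trans ?_
      · have h1 := (mem_filter.1 hy).1
        refine ⟨(hU y h1).1, ?_⟩
        have h2 := hlog y hy
        rw [abs_le] at h2
        have h3 : 0 < y := by linarith [(hU y h1).1]
        rw [← Real.exp_log h3, Real.exp_le_exp]
        linarith
      · exact hsep y (mem_filter.1 hy).1 y' (mem_filter.1 hy').1 hlt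
      · have h5 : Real.exp (Y2 + 1) + 1 ≤ D := by
          rw [hD]
          have := Real.exp_pos 1
          linarith
        calc Real.exp (Y2 + 1) + 1 ≤ D := h5
          _ = D * 1 := (mul_one D).symm
          _ ≤ D * X ^ (e0 - η1) := by gcongr
  have hn : U.card ≤ ⌊D * X ^ (e0 - η1)⌋₊ * (U.image j).card := by
    apply card_le_mul_card_image
    intro i hi
    exact Nat.le_floor (hfib i hi)
  have him : ((U.image j).card : ℝ) ≤ K * X ^ η := by
    have h1 : (U.image j).card ≤ (range (⌊5 * Real.log X⌋₊ + 1)).card := by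
      apply card_le_card
      intro i hi
      rw [mem_image] at hi
      obtain ⟨y, hy, rfl⟩ := hi
      rw [mem_range, Nat.lt_succ_iff]
      apply Nat.floor_mono
      linarith [(hlogU y hy).2]
    rw [card_range] at h1
    have h2 : ((U.image j).card : ℝ) ≤ (⌊5 * Real.log X⌋₊ : ℝ) + 1 := by exact_mod_cast h1
    have h3 := Nat.floor_le (show 0 ≤ 5 * Real.log X by
      have := Real.log_nonneg hX
      positivity)
    linarith [hK X hX]
  have hfl := Nat.floor_le (show 0 ≤ D * X ^ (e0 - η1) by positivity)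
  calc (U.card : ℝ) ≤ (⌊D * X ^ (e0 - η1)⌋₊ : ℝ) * (U.image j).card := by exact_mod_cast hn
    _ ≤ (D * X ^ (e0 - η1)) * (K * X ^ η) := by gcongr
    _ = D * K * (X ^ (e0 - η1) * X ^ η) := by ring
    _ = D * K * X ^ (e0 - η) := by
        rw [← Real.rpow_add hX0]
        congr 2
        rw [hη]
        ring

end Pool.Agent.U766.OP
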