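import Mathlib
import Pool.Agent.U766.OP.Core

/-!
# Oppermann intervals with many primes in all their long subintervals: few exceptions
-/

set_option autoImplicit false

namespace Pool.Agent.U766.OP

open Finset Filter Pool.Agent.Q240.KS

/-- the primes of `(a, a + H]` -/
def primesIn (a H : ℕ) : Finset ℕ := (Ioc a (a + H)).filter Nat.Prime

/-- every interval of length at least `n ^ (1 - δ)` inside `[n ^ 2 - n, n ^ 2 + n]` contains at least `c H / log n` primes -/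
def Rich (c δ : ℝ) (n : ℕ) : Prop :=
  ∀ a H : ℕ, n ^ 2 ≤ a + n → a + H ≤ n ^ 2 + n → (n : ℝ) ^ (1 - δ) ≤ H →
    c * H / Real.log n ≤ ((primesIn a H).card : ℝ)

lemma pic_nat (a H : ℕ) : pic (a : ℝ) (H : ℝ) = (primesIn a H).card := by
  unfold pic primesIn
  rw [Nat.floor_natCast, show (a : ℝ) + (H : ℝ) = ((a + H : ℕ) : ℝ) by push_cast; ring, Nat.floor_natCast]

theorem few (hM : MAINP (1 / 2) 0.306) : ∃ c δ : ℝ, 0 < c ∧ 0 < δ ∧ δ ≤ 0.01 ∧ ∀ K : ℝ, 1 ≤ K → ∃ N0 : ℕ, ∀ N : ℕ,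
    N0 ≤ N → K * (({n : ℕ | 1 ≤ n ∧ n ≤ N ∧ ¬ Rich c δ n}.ncard : ℕ) : ℝ) ≤ (N : ℝ) ^ (0.612 : ℝ) := by
  classical
  obtain ⟨c1, η, C, hc1, hη, hη1, hC, hcount⟩ := count_poor hM (by norm_num) (by norm_num) (by norm_num) (by norm_num)
  set θ : ℝ := 1 - 1 / 2 - η with hθ
  have hθ0 : 0 < θ := by rw [hθ]; linarith
  have hθ1 : θ ≤ 1 := by rw [hθ]; linarith
  -- large n
  have tn : Tendsto (fun n : ℕ => (n : ℝ)) atTop atTop := tendsto_natCast_atTop_atTop
  have hev : ∀ᶠ n : ℕ in atTop, 4 ≤ n ∧ 2 ≤ (n : ℝ) ^ η := by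
    have t1 : Tendsto (fun n : ℕ => (n : ℝ) ^ η) atTop atTop := (tendsto_rpow_atTop hη).comp tn
    filter_upwards [eventually_ge_atTop 4, t1.eventually_ge_atTop 2] with n h1 h2
    exact ⟨h1, h2⟩
  obtain ⟨n1, hn1⟩ := eventually_atTop.1 hev
  -- a poor point
  have hpt : ∀ n : ℕ, n1 ≤ n → ¬ Rich (c1 / 32) η n → ∃ y : ℝ, (n : ℝ) ^ 2 - n ≤ y ∧ y + y ^ θ ≤ (n : ℝ) ^ 2 + n ∧
      Poor c1 θ y := by
    intro n hn hR
    obtain ⟨h4, h2⟩ := hn1 n hn
    unfold Rich at hR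
    push Not at hR
    obtain ⟨a, H, h5, h6, h7, h8⟩ := hR
    have h4' : (4 : ℝ) ≤ n := by exact_mod_cast h4
    have hn0 : (0 : ℝ) < n := by linarith
    have h5' : (n : ℝ) ^ 2 ≤ a + n := by exact_mod_cast h5
    have h6' : (a : ℝ) + H ≤ (n : ℝ) ^ 2 + n := by exact_mod_cast h6
    have hH0 : (0 : ℝ) < H := lt_of_lt_of_le (Real.rpow_pos_of_pos hn0 _) h7
    have hlogn : 0 < Real.log n := Real.log_pos (by linarith)
    obtain ⟨y, g1, g2, g3⟩ := exists_poor (c := c1) (θ := θ) hc1 hθ0 hθ1 (x := (n : ℝ) ^ 2 / 2) (a := a) (H := H)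
      (by nlinarith) (by nlinarith) (by nlinarith) (by
        have e1 : 4 * ((n : ℝ) ^ 2 / 2) = 2 * (n : ℝ) ^ (2 : ℝ) := by
          rw [Real.rpow_two]; ring
        rw [e1, Real.mul_rpow (by norm_num) (by positivity), ← Real.rpow_mul hn0.le]
        have e2 : (2 : ℝ) ^ θ ≤ 2 := by
          calc (2 : ℝ) ^ θ ≤ 2 ^ (1 : ℝ) := Real.rpow_le_rpow_of_exponent_le (by norm_num) hθ1
            _ = 2 := Real.rpow_one 2
        have e3 : (n : ℝ) ^ (1 - η) = (n : ℝ) ^ η * (n : ℝ) ^ (2 * θ) := by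
          rw [← Real.rpow_add hn0]
          congr 1
          rw [hθ]
          ring
        refine le_trans ?_ h7
        rw [e3]
        have e4 : 0 < (n : ℝ) ^ (2 * θ) := Real.rpow_pos_of_pos hn0 _
        nlinarith) (by
        rw [pic_nat]
        refine lt_of_lt_of_le h8 ?_
        have hx1 : 1 < (n : ℝ) ^ 2 / 2 := by nlinarith
        have hlx : 0 < Real.log ((n : ℝ) ^ 2 / 2) := Real.log_pos hx1
        have hlx2 : Real.log ((n : ℝ) ^ 2 / 2) ≤ 2 * Real.log n := by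
          have h9 : Real.log ((n : ℝ) ^ 2 / 2) ≤ Real.log ((n : ℝ) ^ 2) :=
            Real.log_le_log (by linarith) (by nlinarith)
          rw [Real.log_pow] at h9
          exact_mod_cast h9
        rw [div_le_div_iff₀ hlogn hlx]
        calc c1 / 32 * H * Real.log ((n : ℝ) ^ 2 / 2) ≤ c1 / 32 * H * (2 * Real.log n) := by gcongr
          _ = c1 / 16 * H * Real.log n := by ring)
    exact ⟨y, by linarith, by linarith, g3⟩
  choose! y hy1 hy2 hy3 using hpt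
  -- the constant
  refine ⟨c1 / 32, η, by positivity, hη, hη1, fun K hK => ?_⟩
  have hevN : ∀ᶠ N : ℕ in atTop, max n1 1 ≤ N ∧ K * ((n1 : ℝ) + 2 * C) ≤ (N : ℝ) ^ (2 * η) := by
    have t1 : Tendsto (fun n : ℕ => (n : ℝ) ^ (2 * η)) atTop atTop := (tendsto_rpow_atTop (by positivity)).comp tn
    filter_upwards [eventually_ge_atTop (max n1 1), t1.eventually_ge_atTop (K * ((n1 : ℝ) + 2 * C))] with n h1 h2
    exact ⟨h1, h2⟩
  obtain ⟨N0, hN0⟩ := eventually_atTop.1 hevN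
  refine ⟨N0, fun N hN => ?_⟩
  obtain ⟨hN1, hN2⟩ := hN0 N hN
  have hN1' : (1 : ℝ) ≤ N := by exact_mod_cast (le_max_right _ _).trans hN1
  have hN0' : (0 : ℝ) < N := by linarith
  set Bad : Finset ℕ := (Icc 1 N).filter (fun n => ¬ Rich (c1 / 32) η n) with hBad
  have hset : {n : ℕ | 1 ≤ n ∧ n ≤ N ∧ ¬ Rich (c1 / 32) η n} = (Bad : Set ℕ) := by
    ext n
    rw [Finset.mem_coe, hBad, mem_filter, mem_Icc]
    exact ⟨fun h => ⟨⟨h.1, h.2.1⟩, h.2.2⟩, fun h => ⟨h.1.1, h.1.2, h.2⟩⟩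
  rw [hset, Set.ncard_coe_finset]
  set B1 : Finset ℕ := Bad.filter (fun n => n1 ≤ n) with hB1
  have hmemB : ∀ n ∈ B1, n1 ≤ n ∧ n ≤ N ∧ ¬ Rich (c1 / 32) η n := by
    intro n hn
    rw [hB1, mem_filter, hBad, mem_filter, mem_Icc] at hn
    exact ⟨hn.2, hn.1.1.2, hn.1.2⟩
  have hbig : ∀ n : ℕ, n1 ≤ n → (4 : ℝ) ≤ n := fun n hn => by exact_mod_cast (hn1 n hn).1
  have hyp : ∀ n ∈ B1, 2 ≤ y n := by
    intro n hn
    obtain ⟨h1, h2, h3⟩ := hmemB n hn
    have := hy1 n h1 h3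
    have := hbig n h1
    nlinarith
  have hord : ∀ n ∈ B1, ∀ m ∈ B1, n < m → y n + (y n) ^ θ ≤ y m := by
    intro n hn m hm hlt
    obtain ⟨h1, h2, h3⟩ := hmemB n hn
    obtain ⟨g1, g2, g3⟩ := hmemB m hm
    have e1 := hy2 n h1 h3
    have e2 := hy1 m g1 g3
    have hlt' : (n : ℝ) + 1 ≤ m := by exact_mod_cast hlt
    have := hbig n h1
    nlinarith
  have hinj : Set.InjOn y B1 := by
    intro n hn m hm he
    rcases lt_trichotomy n m with hlt | heq | hlt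
    · have h1 := hord n hn m hm hlt
      have h2 : 0 < (y n) ^ θ := Real.rpow_pos_of_pos (by linarith [hyp n hn]) _
      linarith
    · exact heq
    · have h1 := hord m hm n hn hlt
      have h2 : 0 < (y m) ^ θ := Real.rpow_pos_of_pos (by linarith [hyp m hm]) _
      linarith
  have hX : (1 : ℝ) ≤ 2 * (N : ℝ) ^ 2 := by nlinarith
  have hc := hcount (2 * (N : ℝ) ^ 2) hX (B1.image y) (by
    intro w hw
    rw [mem_image] at hw
    obtain ⟨n, hn, rfl⟩ := hw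
    obtain ⟨h1, h2, h3⟩ := hmemB n hn
    refine ⟨hyp n hn, ?_, hy3 n h1 h3⟩
    have e1 := hy2 n h1 h3
    have e2 : 0 < (y n) ^ θ := Real.rpow_pos_of_pos (by linarith [hyp n hn]) _
    have e3 : (n : ℝ) ≤ N := by exact_mod_cast h2
    have := hbig n h1
    nlinarith) (by
    intro w hw w' hw' hlt
    rw [mem_image] at hw hw'
    obtain ⟨n, hn, rfl⟩ := hw
    obtain ⟨m, hm, rfl⟩ := hw'
    apply hord n hn m hm
    rcases lt_trichotomy n m with h | h | h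
    · exact h
    · rw [h] at hlt
      exact absurd hlt (lt_irrefl _)
    · exfalso
      have h1 := hord m hm n hn h
      have h2 : 0 < (y m) ^ θ := Real.rpow_pos_of_pos (by linarith [hyp m hm]) _
      linarith)
  rw [card_image_of_injOn hinj] at hc
  have hcardBad : Bad.card ≤ n1 + B1.card := by
    have h1 : Bad ⊆ range n1 ∪ B1 := by
      intro n hn
      rw [mem_union, mem_range]
      by_cases h : n < n1
      · exact Or.inl h
      · exact Or.inr (by rw [hB1, mem_filter]; exact ⟨hn, not_lt.1 h⟩)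
    have h2 := (card_le_card h1).trans (card_union_le _ _)
    rwa [card_range] at h2
  have hp : (2 * (N : ℝ) ^ 2) ^ (0.306 - η) ≤ 2 * (N : ℝ) ^ (0.612 - 2 * η) := by
    rw [Real.mul_rpow (by norm_num) (by positivity), ← Real.rpow_two, ← Real.rpow_mul hN0'.le]
    have e1 : (2 : ℝ) ^ (0.306 - η) ≤ 2 := by
      calc (2 : ℝ) ^ (0.306 - η) ≤ 2 ^ (1 : ℝ) := Real.rpow_le_rpow_of_exponent_le (by norm_num) (by linarith)
        _ = 2 := Real.rpow_one 2
    have e2 : 2 * (0.306 - η) = 0.612 - 2 * η := by ring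
    rw [e2]
    gcongr
  have hone : 1 ≤ (N : ℝ) ^ (0.612 - 2 * η) := Real.one_le_rpow hN1' (by linarith)
  have hB : (Bad.card : ℝ) ≤ (n1 + 2 * C) * (N : ℝ) ^ (0.612 - 2 * η) := by
    calc (Bad.card : ℝ) ≤ n1 + B1.card := by exact_mod_cast hcardBad
      _ ≤ n1 + C * (2 * (N : ℝ) ^ (0.612 - 2 * η)) := by
          have := mul_le_mul_of_nonneg_left hp hC.le
          linarith
      _ ≤ (n1 + 2 * C) * (N : ℝ) ^ (0.612 - 2 * η) := by nlinarith [Nat.cast_nonneg (α := ℝ) n1]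
  calc K * (Bad.card : ℝ) ≤ K * ((n1 + 2 * C) * (N : ℝ) ^ (0.612 - 2 * η)) := by gcongr
    _ = (K * (n1 + 2 * C)) * (N : ℝ) ^ (0.612 - 2 * η) := by ring
    _ ≤ (N : ℝ) ^ (2 * η) * (N : ℝ) ^ (0.612 - 2 * η) := by gcongr
    _ = (N : ℝ) ^ (0.612 : ℝ) := by
        rw [← Real.rpow_add hN0']
        congr 1
        ring

end Pool.Agent.U766.OP
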