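import Mathlib
import Pool.Agent.U766.OP.Sq

/-!
# Progressions of translates of blocks of primes in windows with many primes
-/

set_option autoImplicit false

namespace Pool.Agent.U766.OP

open Finset Filter

/-- `p` is a term of a `k`-term progression of elements of `S` with difference at most `D`, such that the primes
within distance `H` of its terms are the same up to translation -/
def Rec (k : ℕ) (D H : ℝ) (S : Finset ℕ) (p : ℕ) : Prop :=
  ∃ a d : ℕ, 1 ≤ d ∧ (d : ℝ) ≤ D ∧ (∀ j < k, a + j * d ∈ S) ∧ (∃ j < k, p = a + j * d) ∧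
    ∀ i < k, ∀ j < k, ∀ u : ℕ, (u : ℝ) ≤ H → ((a + i * d + u).Prime ↔ (a + j * d + u).Prime) ∧
      ((a + i * d - u).Prime ↔ (a + j * d - u).Prime)

/-- the statement of `Pool.Agent.Y880.RS.P3.windows` -/
def WIN : Prop := ∀ (k A : ℕ) (_ : 1 ≤ k) (_ : 1 ≤ A) (ε C : ℝ) (_ : 0 < ε),
    ∃ B Y₀ : ℕ, ∀ y Y : ℕ, Y₀ ≤ Y → y + Y ≤ Y ^ A → ∀ S ⊆ Ioc y (y + Y), (∀ p ∈ S, p.Prime) →
    ∀ E ⊆ S, (∀ p ∈ E, ¬ Rec k (Real.log Y ^ B) (C * Real.log Y) S p) → (E.card : ℝ) ≤ ε * (Y / Real.log Y)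

/-- `(a, a + H]` contains `k` translates, along an arithmetic progression with difference at most `D`, of a block of
length `w ≤ W` which begins with a prime and contains at least `m` primes; all the `k` blocks have the same primes, up to
the translation. -/
def Blocks (k m : ℕ) (D W : ℝ) (a H : ℕ) : Prop :=
  ∃ q d w : ℕ, 1 ≤ d ∧ (d : ℝ) ≤ D ∧ (w : ℝ) ≤ W ∧ a < q ∧ q + (k - 1) * d + w ≤ a + H ∧ q.Prime ∧
    (∀ j < k, ∀ u ≤ w, (q + j * d + u).Prime ↔ (q + u).Prime) ∧
    m ≤ ((range (w + 1)).filter (fun u => (q + u).Prime)).card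

/-- most elements of a dense set have many elements to the right at a small distance -/
lemma sparse_right {P : Finset ℕ} {a H w m : ℕ} (hP : P ⊆ Ioc a (a + H)) (hw : 1 ≤ w) :
    (P.filter (fun p => (P.filter (fun q => p ≤ q ∧ q ≤ p + w)).card < m)).card ≤ m * (H / w + 1) := by
  classical
  set E := P.filter (fun p => (P.filter (fun q => p ≤ q ∧ q ≤ p + w)).card < m) with hE
  have h1 : E.card ≤ m * (E.image (fun p => (p - a - 1) / w)).card := by
    apply card_le_mul_card_image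
    intro i hi
    set F := E.filter (fun p => (p - a - 1) / w = i) with hF
    rcases F.eq_empty_or_nonempty with h0 | hne
    · rw [h0]; simp
    · obtain ⟨hmin⟩ : Nonempty (F.min' hne ∈ F) := ⟨F.min'_mem hne⟩
      set p0 := F.min' hne with hp0
      have hp0E : p0 ∈ E := (mem_filter.1 hmin).1
      have hp0i : (p0 - a - 1) / w = i := (mem_filter.1 hmin).2
      have hp0P := (mem_filter.1 hp0E)
      have hsub : F ⊆ P.filter (fun q => p0 ≤ q ∧ q ≤ p0 + w) := by
        intro p hp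
        have hp1 := mem_filter.1 hp
        have hp2 := mem_filter.1 hp1.1
        have hle : p0 ≤ p := F.min'_le p hp
        rw [mem_filter]
        refine ⟨hp2.1, hle, ?_⟩
        have ha0 := mem_Ioc.1 (hP hp0P.1)
        have ha1 := mem_Ioc.1 (hP hp2.1)
        have e1 := Nat.div_add_mod (p - a - 1) w
        have e2 := Nat.div_add_mod (p0 - a - 1) w
        have e3 := Nat.mod_lt (p - a - 1) hw
        rw [hp1.2] at e1
        rw [hp0i] at e2
        omega
      exact (card_le_card hsub).trans hp0P.2.le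
  refine h1.trans ?_
  apply Nat.mul_le_mul_left
  have h2 : E.image (fun p => (p - a - 1) / w) ⊆ range (H / w + 1) := by
    intro i hi
    rw [mem_image] at hi
    obtain ⟨p, hp, rfl⟩ := hi
    have hp2 := mem_Ioc.1 (hP (mem_filter.1 hp).1)
    rw [mem_range, Nat.lt_succ_iff]
    apply Nat.div_le_div_right
    omega
  have h3 := card_le_card h2
  rwa [card_range] at h3

theorem blocks_of (hWIN : WIN) {c δ : ℝ} (hc : 0 < c) (hδ : δ ≤ 0.01) (k m : ℕ) (hk : 1 ≤ k) :
    ∃ B n₀ : ℕ, ∀ n : ℕ, n₀ ≤ n → ∀ a H : ℕ, n ^ 2 ≤ a + n → a + H ≤ n ^ 2 + n → (n : ℝ) ^ (1 - δ) ≤ H →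
      c * H / Real.log n ≤ ((primesIn a H).card : ℝ) → Blocks k m (Real.log n ^ B) (B * Real.log n) a H := by
  classical
  set K : ℝ := 8 * m / c + 1 with hK
  have hK1 : 1 ≤ K := by
    rw [hK]
    have : 0 ≤ 8 * (m : ℝ) / c := by positivity
    linarith
  obtain ⟨B, Y₀, hB⟩ := hWIN k 3 hk (by norm_num) (c / 8) (2 * K) (by positivity)
  obtain ⟨B', hB'⟩ : ∃ B' : ℕ, B' = 2 * B + ⌈K⌉₊ := ⟨_, rfl⟩
  -- large n
  have tn : Tendsto (fun n : ℕ => (n : ℝ)) atTop atTop := tendsto_natCast_atTop_atTop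
  have tl : Tendsto (fun n : ℕ => Real.log (n : ℝ)) atTop atTop := Real.tendsto_log_atTop.comp tn
  have hev : ∀ᶠ n : ℕ in atTop, (10 ≤ n ∧ 2 ≤ Real.log n ∧ (Y₀ : ℝ) ≤ (n : ℝ) ^ (0.99 : ℝ) ∧
      2 ≤ (n : ℝ) ^ (0.97 : ℝ)) ∧ Real.log n * (16 * (m + 1) / c) ≤ (n : ℝ) ^ (0.99 : ℝ) := by
    have t1 : Tendsto (fun n : ℕ => (n : ℝ) ^ (0.99 : ℝ)) atTop atTop := (tendsto_rpow_atTop (by norm_num)).comp tn
    have t2 : Tendsto (fun n : ℕ => (n : ℝ) ^ (0.97 : ℝ)) atTop atTop := (tendsto_rpow_atTop (by norm_num)).comp tn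
    have t3 : ∀ᶠ x : ℝ in atTop, Real.log x * (16 * (m + 1) / c) ≤ x ^ (0.99 : ℝ) := by
      have h := (isLittleO_log_rpow_atTop (show (0 : ℝ) < 0.99 by norm_num)).bound
        (show (0 : ℝ) < 1 / (16 * (m + 1) / c) by positivity)
      filter_upwards [h, eventually_ge_atTop 1] with x hx hx1
      rw [Real.norm_of_nonneg (Real.log_nonneg hx1), Real.norm_of_nonneg (by positivity)] at hx
      have hpos : (0 : ℝ) < 16 * (m + 1) / c := by positivity
      calc Real.log x * (16 * (m + 1) / c) ≤ (1 / (16 * (m + 1) / c) * x ^ (0.99 : ℝ)) * (16 * (m + 1) / c) := by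
            gcongr
        _ = x ^ (0.99 : ℝ) := by field_simp
    filter_upwards [eventually_ge_atTop 10, tl.eventually_ge_atTop 2, t1.eventually_ge_atTop (Y₀ : ℝ),
      t2.eventually_ge_atTop 2, tn.eventually t3] with n h1 h2 h3 h4 h5
    exact ⟨⟨h1, h2, h3, h4⟩, h5⟩
  obtain ⟨n₀, hn₀⟩ := eventually_atTop.1 hev
  refine ⟨B', n₀, fun n hn a H h5 h6 h7 h8 => ?_⟩
  obtain ⟨⟨g1, g2, g3, g4⟩, g5⟩ := hn₀ n hn
  have g1' : (10 : ℝ) ≤ n := by exact_mod_cast g1
  have hn0 : (0 : ℝ) < n := by linarith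
  have h99 : (n : ℝ) ^ (0.99 : ℝ) ≤ H :=
    (Real.rpow_le_rpow_of_exponent_le (by linarith) (by linarith)).trans h7
  have hH0 : (0 : ℝ) < H := lt_of_lt_of_le (Real.rpow_pos_of_pos hn0 _) h99
  have h5' : (n : ℝ) ^ 2 ≤ a + n := by exact_mod_cast h5
  have h6' : (a : ℝ) + H ≤ (n : ℝ) ^ 2 + n := by exact_mod_cast h6
  have hH2 : (H : ℝ) ≤ 2 * n := by linarith
  have hHY : Y₀ ≤ H := by exact_mod_cast g3.trans h99
  have hlogn : 0 < Real.log n := by linarith
  -- log H
  have hlH1 : Real.log n / 2 ≤ Real.log H := by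
    have h9 : Real.log ((n : ℝ) ^ (0.99 : ℝ)) ≤ Real.log H := Real.log_le_log (Real.rpow_pos_of_pos hn0 _) h99
    rw [Real.log_rpow hn0] at h9
    linarith
  have hlH0 : 0 < Real.log H := by linarith
  have hlH2 : Real.log H ≤ 2 * Real.log n := by
    have h9 : Real.log H ≤ Real.log (2 * n) := Real.log_le_log hH0 hH2
    rw [Real.log_mul (by norm_num) hn0.ne'] at h9
    have := Real.log_two_lt_d9
    linarith
  -- a + H ≤ H ^ 3
  have hcube : a + H ≤ H ^ 3 := by
    have h9 : ((n : ℝ) ^ (0.99 : ℝ)) ^ 3 ≤ (H : ℝ) ^ 3 := by gcongr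
    have h10 : ((n : ℝ) ^ (0.99 : ℝ)) ^ 3 = (n : ℝ) ^ 2 * (n : ℝ) ^ (0.97 : ℝ) := by
      rw [← Real.rpow_natCast ((n : ℝ) ^ (0.99 : ℝ)) 3, ← Real.rpow_mul hn0.le, ← Real.rpow_two,
        ← Real.rpow_add hn0]
      norm_num
    have h11 : (n : ℝ) ^ 2 * 2 ≤ (n : ℝ) ^ 2 * (n : ℝ) ^ (0.97 : ℝ) := by gcongr
    have h12 : ((a + H : ℕ) : ℝ) ≤ ((H ^ 3 : ℕ) : ℝ) := by
      push_cast
      nlinarith
    exact_mod_cast h12
  set P := primesIn a H with hP
  have hPsub : P ⊆ Ioc a (a + H) := filter_subset _ _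
  have hPp : ∀ p ∈ P, p.Prime := fun p hp => (mem_filter.1 hp).2
  set W : ℝ := K * Real.log n with hW
  set w0 : ℕ := ⌊W⌋₊ with hw0
  have hW2 : 2 ≤ W := by
    rw [hW]
    nlinarith
  have hw1 : 1 ≤ w0 := by
    rw [hw0]
    exact Nat.le_floor (by push_cast; linarith)
  have hwle : (w0 : ℝ) ≤ W := Nat.floor_le (by linarith)
  have hwge : W / 2 ≤ w0 := by
    have := Nat.lt_floor_add_one W
    rw [← hw0] at this
    linarith
  set E := P.filter (fun p => (P.filter (fun q => p ≤ q ∧ q ≤ p + w0)).card < m) with hE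
  have hEcard : (E.card : ℝ) ≤ c / 2 * H / Real.log n := by
    have e1 : E.card ≤ m * (H / w0 + 1) := sparse_right hPsub hw1
    have e2 : ((H / w0 : ℕ) : ℝ) ≤ (H : ℝ) / w0 := Nat.cast_div_le
    have hw0pos : (0 : ℝ) < w0 := by exact_mod_cast hw1
    have e3 : (E.card : ℝ) ≤ m * ((H : ℝ) / w0 + 1) := by
      have : (E.card : ℝ) ≤ m * (((H / w0 : ℕ) : ℝ) + 1) := by exact_mod_cast e1
      refine this.trans ?_
      gcongr
    have e4 : (m : ℝ) * ((H : ℝ) / w0) ≤ c / 4 * H / Real.log n := by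
      have e5 : 4 * (m : ℝ) / c * Real.log n ≤ w0 := by
        refine le_trans ?_ hwge
        rw [hW, hK]
        have : 4 * (m : ℝ) / c = (8 * m / c) / 2 := by ring
        rw [this]
        nlinarith
      have e6 : 4 * (m : ℝ) * Real.log n ≤ c * w0 := by
        have := mul_le_mul_of_nonneg_left e5 hc.le
        have e7 : c * (4 * (m : ℝ) / c * Real.log n) = 4 * m * Real.log n := by field_simp
        rwa [e7] at this
      rw [← mul_div_assoc, div_le_div_iff₀ hw0pos hlogn]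
      have := mul_le_mul_of_nonneg_right e6 hH0.le
      nlinarith
    have e8 : (m : ℝ) ≤ c / 4 * H / Real.log n := by
      rw [le_div_iff₀ hlogn]
      have e9 : Real.log n * (16 * (m + 1) / c) ≤ H := g5.trans h99
      have e10 := mul_le_mul_of_nonneg_left e9 (show 0 ≤ c / 4 by positivity)
      have e11 : c / 4 * (Real.log n * (16 * (m + 1) / c)) = 4 * (m + 1) * Real.log n := by field_simp; ring
      rw [e11] at e10
      have : (m : ℝ) * Real.log n ≤ 4 * (m + 1) * Real.log n := by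
        apply mul_le_mul_of_nonneg_right _ hlogn.le
        have : (0 : ℝ) ≤ m := Nat.cast_nonneg m
        linarith
      linarith
    calc (E.card : ℝ) ≤ m * ((H : ℝ) / w0 + 1) := e3
      _ = (m : ℝ) * ((H : ℝ) / w0) + m := by ring
      _ ≤ c / 4 * H / Real.log n + c / 4 * H / Real.log n := add_le_add e4 e8
      _ = c / 2 * H / Real.log n := by ring
  set S := P \ E with hS
  have hSP : S ⊆ P := sdiff_subset
  have hScard : c / 2 * H / Real.log n ≤ (S.card : ℝ) := by
    have e1 : P.card ≤ S.card + E.card := by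
      have := card_le_card_sdiff_add_card (s := P) (t := E)
      rw [hS]
      exact this
    have e2 : (P.card : ℝ) ≤ S.card + E.card := by exact_mod_cast e1
    have e3 : c * H / Real.log n = c / 2 * H / Real.log n + c / 2 * H / Real.log n := by ring
    linarith
  -- a recurring element
  have hex : ∃ p ∈ S, Rec k (Real.log H ^ B) (2 * K * Real.log H) S p := by
    by_contra hcon
    push Not at hcon
    have h9 := hB a H hHY hcube S (hSP.trans hPsub) (fun p hp => hPp p (hSP hp)) S (Subset.refl _) hcon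
    have h10 : c / 8 * ((H : ℝ) / Real.log H) ≤ c / 4 * H / Real.log n := by
      rw [← mul_div_assoc, div_le_div_iff₀ hlH0 hlogn]
      have := mul_le_mul_of_nonneg_left hlH1 (show 0 ≤ c / 4 * H by positivity)
      linarith
    have h11 : c / 4 * H / Real.log n < c / 2 * H / Real.log n := by
      apply div_lt_div_of_pos_right _ hlogn
      nlinarith
    linarith
  obtain ⟨p, hpS, q, d, hd1, hd2, hqS, -, hnb⟩ := hex
  have hkk : k - 1 < k := by omega
  set pl : ℕ := q + (k - 1) * d with hpl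
  have hplS : pl ∈ S := hqS (k - 1) hkk
  have hplP : pl ∈ P := hSP hplS
  have hplm : m ≤ (P.filter (fun r => pl ≤ r ∧ r ≤ pl + w0)).card := by
    by_contra hcon
    rw [not_le] at hcon
    exact (mem_sdiff.1 hplS).2 (mem_filter.2 ⟨hplP, hcon⟩)
  set T := P.filter (fun r => pl ≤ r ∧ r ≤ pl + w0) with hT
  have hTne : T.Nonempty := ⟨pl, mem_filter.2 ⟨hplP, le_rfl, by omega⟩⟩
  set w : ℕ := T.max' hTne - pl with hw
  have hmax := T.max'_mem hTne
  have hmax2 := mem_filter.1 hmax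
  have hmaxI := mem_Ioc.1 (hPsub hmax2.1)
  have hww : w ≤ w0 := by omega
  have hq0 : q ∈ S := by
    have := hqS 0 (by omega)
    rwa [zero_mul, add_zero] at this
  have hWn : ∀ u : ℕ, u ≤ w → (u : ℝ) ≤ 2 * K * Real.log H := by
    intro u hu
    have h9 : (u : ℝ) ≤ w0 := by exact_mod_cast hu.trans hww
    have h10 : W ≤ 2 * K * Real.log H := by
      rw [hW]
      nlinarith
    linarith
  have hcast : (⌈K⌉₊ : ℝ) ≤ B' := by
    rw [hB']
    push_cast
    have : (0 : ℝ) ≤ B := Nat.cast_nonneg B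
    linarith
  refine ⟨q, d, w, hd1, ?_, ?_, ?_, ?_, hPp q (hSP hq0), ?_, ?_⟩
  · refine hd2.trans ?_
    calc Real.log H ^ B ≤ (Real.log n ^ 2) ^ B := by
          apply pow_le_pow_left₀ hlH0.le
          nlinarith
      _ = Real.log n ^ (2 * B) := by rw [← pow_mul]
      _ ≤ Real.log n ^ B' := by
          apply pow_le_pow_right₀ (by linarith)
          omega
  · have h9 : (w : ℝ) ≤ w0 := by exact_mod_cast hww
    have h10 : W ≤ B' * Real.log n := by
      rw [hW]
      apply mul_le_mul_of_nonneg_right _ hlogn.le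
      exact (Nat.le_ceil K).trans hcast
    linarith
  · exact (mem_Ioc.1 (hPsub (hSP hq0))).1
  · have : pl + w ≤ a + H := by omega
    exact this
  · intro j hj u hu
    have h9 := (hnb j hj 0 (by omega) u (hWn u hu)).1
    rw [zero_mul, add_zero] at h9
    exact h9
  · refine hplm.trans ?_
    apply card_le_card_of_injOn (fun r => r - pl)
    · intro r hr
      have hr' := mem_filter.1 (Finset.mem_coe.1 hr)
      have hrle : r ≤ T.max' hTne := T.le_max' r (Finset.mem_coe.1 hr)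
      have hu : r - pl ≤ w := by omega
      rw [Finset.mem_coe, mem_filter, mem_range]
      refine ⟨Nat.lt_succ_iff.2 hu, ?_⟩
      have h9 := (hnb (k - 1) hkk 0 (by omega) (r - pl) (hWn _ hu)).1
      rw [zero_mul, add_zero] at h9
      apply h9.1
      have h10 : q + (k - 1) * d + (r - pl) = r := by omega
      rw [h10]
      exact hPp r hr'.1
    · intro r hr r' hr' he
      have h1 := mem_filter.1 (Finset.mem_coe.1 hr)
      have h2 := mem_filter.1 (Finset.mem_coe.1 hr')
      simp only at he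
      omega

end Pool.Agent.U766.OP
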