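import Mathlib

/-!
# The dimension of a limsup set with given covers
-/

set_option autoImplicit false

open Finset Filter Topology MeasureTheory
open scoped ENNReal NNReal

namespace Pool.Agent.U766.OP

theorem limsup_dim {D : ℝ} (hD : 0 < D) (A : ℕ → Set ℝ) (T : ℕ → Finset ℝ) (V : ℕ → ℝ → Set ℝ)
    (ρ : ℕ → ℝ → ℝ) (r0 : ℕ → ℝ) (hρ0 : ∀ m, ∀ t ∈ T m, 0 ≤ ρ m t)
    (hcov : ∀ m, ∀ x ∈ A m, ∃ t ∈ T m, x ∈ V m t)
    (hdiam : ∀ m, ∀ t ∈ T m, Metric.ediam (V m t) ≤ ENNReal.ofReal (ρ m t))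
    (hρr : ∀ m, ∀ t ∈ T m, ρ m t ≤ r0 m) (hr0 : Tendsto r0 atTop (𝓝 0))
    (hsum : Summable (fun m => ∑ t ∈ T m, (ρ m t) ^ D)) :
    dimH {x : ℝ | ∀ n1 : ℕ, ∃ n : ℕ, n1 ≤ n ∧ x ∈ A n} ≤ ENNReal.ofReal D := by
  have hDn : ((Real.toNNReal D : ℝ≥0) : ℝ) = D := Real.coe_toNNReal D hD.le
  have hgoal : ENNReal.ofReal D = ((Real.toNNReal D : ℝ≥0) : ℝ≥0∞) := rfl
  rw [hgoal]
  apply dimH_le_of_hausdorffMeasure_ne_top
  rw [hDn]
  have hr : ∀ ε : ℝ≥0∞, 0 < ε → ∃ N : ℕ, ∀ n : ℕ, N ≤ n → ENNReal.ofReal (r0 n) ≤ ε := by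
    intro ε hε
    have h1 := ENNReal.tendsto_ofReal hr0
    rw [ENNReal.ofReal_zero] at h1
    exact ((h1.eventually (ge_mem_nhds hε))).exists_forall_of_atTop
  set r : ℕ → ℝ≥0∞ := fun n => ⨆ i : ℕ, ENNReal.ofReal (r0 (n + i)) with hrdef
  have hrt : Tendsto r atTop (𝓝 0) := by
    rw [ENNReal.tendsto_atTop_zero]
    intro ε hε
    obtain ⟨N, hN⟩ := hr ε hε
    exact ⟨N, fun n hn => iSup_le fun i => hN _ (by omega)⟩
  have key := Measure.hausdorffMeasure_le_liminf_tsum (X := ℝ) (β := ℕ)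
    (ι := fun n => Σ i : ℕ, (T (n + i))) D
    {x : ℝ | ∀ n1 : ℕ, ∃ n : ℕ, n1 ≤ n ∧ x ∈ A n}
    (l := atTop) r hrt
    (fun n q => V (n + q.1) (q.2 : ℝ))
    (Eventually.of_forall fun n q => by
      refine (hdiam _ _ q.2.2).trans ?_
      refine (ENNReal.ofReal_le_ofReal (hρr _ _ q.2.2)).trans ?_
      exact le_iSup (fun i : ℕ => ENNReal.ofReal (r0 (n + i))) q.1)
    (Eventually.of_forall fun n x hx => by
      obtain ⟨m, hm1, hm2⟩ := hx n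
      obtain ⟨i, rfl⟩ := Nat.exists_eq_add_of_le hm1
      obtain ⟨t, ht, hxt⟩ := hcov _ x hm2
      rw [Set.mem_iUnion]
      exact ⟨⟨i, ⟨t, ht⟩⟩, hxt⟩)
  refine ne_top_of_le_ne_top ?_ key
  have hnn : ∀ m : ℕ, 0 ≤ ∑ t ∈ T m, (ρ m t) ^ D := fun m =>
    Finset.sum_nonneg fun t ht => Real.rpow_nonneg (hρ0 m t ht) _
  have htot : (∑' m : ℕ, ENNReal.ofReal (∑ t ∈ T m, (ρ m t) ^ D)) ≠ ⊤ := by
    rw [← ENNReal.ofReal_tsum_of_nonneg hnn hsum]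
    exact ENNReal.ofReal_ne_top
  have hbound : ∀ n : ℕ, (∑' q : Σ i : ℕ, (T (n + i)), Metric.ediam (V (n + q.1) (q.2 : ℝ)) ^ D) ≤
      ∑' m : ℕ, ENNReal.ofReal (∑ t ∈ T m, (ρ m t) ^ D) := by
    intro n
    rw [ENNReal.tsum_sigma']
    calc (∑' i : ℕ, ∑' x : (T (n + i)), Metric.ediam (V (n + i) (x : ℝ)) ^ D)
        ≤ ∑' i : ℕ, ENNReal.ofReal (∑ t ∈ T (n + i), (ρ (n + i) t) ^ D) := by
          apply ENNReal.tsum_le_tsum
          intro i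
          rw [tsum_fintype, ENNReal.ofReal_sum_of_nonneg (fun t ht => Real.rpow_nonneg (hρ0 _ t ht) _),
            ← Finset.sum_coe_sort (T (n + i)) (fun t => ENNReal.ofReal ((ρ (n + i) t) ^ D))]
          apply Finset.sum_le_sum
          intro x _
          rw [← ENNReal.ofReal_rpow_of_nonneg (hρ0 _ _ x.2) hD.le]
          exact ENNReal.rpow_le_rpow (hdiam _ _ x.2) hD.le
      _ ≤ ∑' m : ℕ, ENNReal.ofReal (∑ t ∈ T m, (ρ m t) ^ D) :=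
          ENNReal.tsum_comp_le_tsum_of_injective (f := fun i : ℕ => n + i)
            (fun a b h => by simpa using h) (fun m : ℕ => ENNReal.ofReal (∑ t ∈ T m, (ρ m t) ^ D))
  refine ne_top_of_le_ne_top htot ?_
  apply Filter.liminf_le_of_le
  · isBoundedDefault
  · intro b hb
    obtain ⟨n, hn⟩ := hb.exists
    exact hn.trans (hbound n)

end Pool.Agent.U766.OP
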