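import Mathlib
import Pool.Agent.U766.OP.Core

/-!
# A thin discrete set near all poor points, and sums over it
-/

set_option autoImplicit false

namespace Pool.Agent.U766.OP

open Finset Filter Pool.Agent.Q240.KS

/-- separated poor points -/
def SepPoor (c θ : ℝ) (S : Set ℝ) : Prop :=
  (∀ y ∈ S, 2 ≤ y ∧ Poor c θ y) ∧ ∀ y ∈ S, ∀ y' ∈ S, y < y' → y + y ^ θ ≤ y'

theorem net {lam0 e0 : ℝ} (hM : MAINP lam0 e0) (hl0 : 0.2 ≤ lam0) (hl1 : lam0 ≤ 0.9) (he0 : 0.01 ≤ e0)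
    (he1 : e0 ≤ 1) :
    ∃ c η C : ℝ, 0 < c ∧ 0 < η ∧ η ≤ 0.01 ∧ 0 < C ∧ ∃ S : Set ℝ,
      (∀ X : ℝ, 1 ≤ X → {s | s ∈ S ∧ s ≤ X}.Finite ∧ (({s | s ∈ S ∧ s ≤ X}.ncard : ℕ) : ℝ) ≤ C * X ^ (e0 - η)) ∧
      (∀ s ∈ S, 2 ≤ s) ∧
      ∀ y : ℝ, 2 ≤ y → Poor c (1 - lam0 - η) y → ∃ s ∈ S, |s - y| ≤ y ^ (1 - lam0 - η) := by
  classical
  obtain ⟨c, η, C, hc, hη, hη1, hC, hcount⟩ := count_poor hM hl0 hl1 he0 he1
  refine ⟨c, η, C, hc, hη, hη1, hC, ?_⟩
  set θ : ℝ := 1 - lam0 - η with hθ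
  have hθ0 : 0 < θ := by rw [hθ]; linarith
  obtain ⟨S, hS⟩ := zorn_subset {S : Set ℝ | SepPoor c θ S} (by
    intro ch hch hchain
    refine ⟨⋃₀ ch, ⟨?_, ?_⟩, fun s hs => Set.subset_sUnion_of_mem hs⟩
    · rintro y ⟨s, hs, hy⟩
      exact (hch hs).1 y hy
    · rintro y ⟨s, hs, hy⟩ y' ⟨s', hs', hy'⟩ hlt
      rcases hchain.total hs hs' with h | h
      · exact (hch hs').2 y (h hy) y' hy' hlt
      · exact (hch hs).2 y hy y' (h hy') hlt)
  have hSS : SepPoor c θ S := hS.prop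
  refine ⟨S, fun X hX => ?_, fun s hs => (hSS.1 s hs).1, fun y hy hP => ?_⟩
  · have hfinite : ∀ U : Finset ℝ, (U : Set ℝ) ⊆ {s | s ∈ S ∧ s ≤ X} → (U.card : ℝ) ≤ C * X ^ (e0 - η) := by
      intro U hU
      apply hcount X hX U
      · intro y hy
        have h1 := hU hy
        exact ⟨(hSS.1 y h1.1).1, h1.2, (hSS.1 y h1.1).2⟩
      · intro y hy y' hy' hlt
        exact hSS.2 y (hU hy).1 y' (hU hy').1 hlt
    have hfin : {s | s ∈ S ∧ s ≤ X}.Finite := by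
      by_contra hinf
      obtain ⟨U, hU1, hU2⟩ := Set.Infinite.exists_subset_card_eq hinf (⌊C * X ^ (e0 - η)⌋₊ + 1)
      have h1 := hfinite U hU1
      rw [hU2] at h1
      have h2 := Nat.lt_floor_add_one (C * X ^ (e0 - η))
      push_cast at h1
      linarith
    refine ⟨hfin, ?_⟩
    rw [Set.ncard_eq_toFinset_card _ hfin]
    exact hfinite _ (by rw [Set.Finite.coe_toFinset])
  · by_cases hyS : y ∈ S
    · refine ⟨y, hyS, ?_⟩
      rw [sub_self, abs_zero]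
      positivity
    · by_contra hcon
      push Not at hcon
      have h1 : SepPoor c θ (insert y S) := by
        refine ⟨?_, ?_⟩
        · rintro z (rfl | hz)
          · exact ⟨hy, hP⟩
          · exact hSS.1 z hz
        · rintro z (rfl | hz) z' (rfl | hz') hlt
          · exact absurd hlt (lt_irrefl _)
          · have h2 := hcon z' hz'
            rw [abs_of_pos (by linarith)] at h2
            linarith
          · have h2 := hcon z hz
            rw [abs_sub_comm, abs_of_pos (by linarith)] at h2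
            have h3 : z ^ θ ≤ z' ^ θ := Real.rpow_le_rpow (by linarith [(hSS.1 z hz).1]) hlt.le hθ0.le
            linarith
          · exact hSS.2 z hz z' hz' hlt
      have h2 := hS.le_of_ge h1 (Set.subset_insert y S)
      exact hyS (h2 (Set.mem_insert y S))

/-- sums of negative powers over the tail of a thin set -/
theorem tail_sum {S : Set ℝ} {C e γ : ℝ} (hC : 0 < C) (he : 0 ≤ e) (hγ : e < γ)
    (hS : ∀ X : ℝ, 1 ≤ X → {s | s ∈ S ∧ s ≤ X}.Finite ∧ (({s | s ∈ S ∧ s ≤ X}.ncard : ℕ) : ℝ) ≤ C * X ^ e) :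
    ∃ K : ℝ, 0 < K ∧ ∀ L : ℝ, 1 ≤ L → ∀ T : Finset ℝ, (∀ s ∈ T, s ∈ S ∧ L ≤ s) →
      ∑ s ∈ T, s ^ (-γ) ≤ K * L ^ (-(γ - e)) := by
  classical
  set ρ : ℝ := (2 : ℝ) ^ (-(γ - e)) with hρ
  have hρ0 : 0 < ρ := Real.rpow_pos_of_pos (by norm_num) _
  have hρ1 : ρ < 1 := Real.rpow_lt_one_of_one_lt_of_neg (by norm_num) (by linarith)
  refine ⟨C * 2 ^ e * (1 - ρ)⁻¹, by
    have : 0 < 1 - ρ := by linarith
    positivity, fun L hL T hT => ?_⟩
  have hL0 : 0 < L := by linarith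
  set i : ℝ → ℕ := fun s => ⌊Real.logb 2 (s / L)⌋₊ with hi
  have hlow : ∀ s ∈ T, (2 : ℝ) ^ (i s) * L ≤ s ∧ s ≤ (2 : ℝ) ^ (i s + 1) * L := by
    intro s hs
    obtain ⟨h1, h2⟩ := hT s hs
    have hsL : 1 ≤ s / L := by rwa [le_div_iff₀ hL0, one_mul]
    have hlog : 0 ≤ Real.logb 2 (s / L) := Real.logb_nonneg (by norm_num) hsL
    have h3 := Nat.floor_le hlog
    have h4 := Nat.lt_floor_add_one (Real.logb 2 (s / L))
    have h5 : (2 : ℝ) ^ ((i s : ℕ) : ℝ) ≤ s / L := (Real.le_logb_iff_rpow_le (by norm_num) (by linarith)).1 h3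
    have h6 : s / L < (2 : ℝ) ^ (((i s : ℕ) : ℝ) + 1) := (Real.logb_lt_iff_lt_rpow (by norm_num) (by linarith)).1 h4
    rw [Real.rpow_natCast, le_div_iff₀ hL0] at h5
    have h7 : (2 : ℝ) ^ (((i s : ℕ) : ℝ) + 1) = (2 : ℝ) ^ (i s + 1) := by
      rw [← Real.rpow_natCast]; push_cast; rfl
    rw [h7, div_lt_iff₀ hL0] at h6
    exact ⟨h5, h6.le⟩
  obtain ⟨M, hM⟩ : ∃ M : ℕ, ∀ s ∈ T, i s < M := by
    refine ⟨(T.image i).sup id + 1, fun s hs => ?_⟩
    have := Finset.le_sup (f := id) (mem_image_of_mem i hs)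
    simp only [id] at this
    omega
  have hfw : ∑ s ∈ T, s ^ (-γ) = ∑ j ∈ range M, ∑ s ∈ T.filter (fun s => i s = j), s ^ (-γ) :=
    (Finset.sum_fiberwise_of_maps_to (fun s hs => mem_range.2 (hM s hs)) _).symm
  rw [hfw]
  have hj : ∀ j ∈ range M, ∑ s ∈ T.filter (fun s => i s = j), s ^ (-γ) ≤
      C * 2 ^ e * L ^ (-(γ - e)) * ρ ^ j := by
    intro j _
    set X : ℝ := (2 : ℝ) ^ (j + 1) * L with hX
    have hX1 : 1 ≤ X := by
      rw [hX]
      have : (1 : ℝ) ≤ 2 ^ (j + 1) := one_le_pow₀ (by norm_num)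
      nlinarith
    obtain ⟨hfin, hcard⟩ := hS X hX1
    have h1 : ((T.filter (fun s => i s = j)).card : ℝ) ≤ C * X ^ e := by
      refine le_trans ?_ hcard
      rw [Nat.cast_le, ← Set.ncard_coe_finset]
      apply Set.ncard_le_ncard _ hfin
      intro s hs
      rw [Finset.mem_coe, mem_filter] at hs
      refine ⟨(hT s hs.1).1, ?_⟩
      have := (hlow s hs.1).2
      rw [hs.2] at this
      exact this
    have h2 : ∀ s ∈ T.filter (fun s => i s = j), s ^ (-γ) ≤ ((2 : ℝ) ^ j * L) ^ (-γ) := by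
      intro s hs
      rw [mem_filter] at hs
      have h3 := (hlow s hs.1).1
      rw [hs.2] at h3
      exact Real.rpow_le_rpow_of_nonpos (by positivity) h3 (by linarith)
    calc ∑ s ∈ T.filter (fun s => i s = j), s ^ (-γ)
        ≤ (T.filter (fun s => i s = j)).card • ((2 : ℝ) ^ j * L) ^ (-γ) := Finset.sum_le_card_nsmul _ _ _ h2
      _ = ((T.filter (fun s => i s = j)).card : ℝ) * ((2 : ℝ) ^ j * L) ^ (-γ) := by rw [nsmul_eq_mul]
      _ ≤ (C * X ^ e) * ((2 : ℝ) ^ j * L) ^ (-γ) := by gcongr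
      _ = C * 2 ^ e * L ^ (-(γ - e)) * ρ ^ j := by
          have e1 : X = 2 * ((2 : ℝ) ^ j * L) := by rw [hX, pow_succ]; ring
          have hP : 0 < (2 : ℝ) ^ j * L := by positivity
          rw [e1, Real.mul_rpow (by norm_num) hP.le, mul_assoc, mul_assoc, ← Real.rpow_add hP,
            Real.mul_rpow (by positivity) hL0.le]
          have e2 : ((2 : ℝ) ^ j) ^ (e + -γ) = ρ ^ j := by
            rw [hρ, ← Real.rpow_natCast, ← Real.rpow_mul (by norm_num), ← Real.rpow_natCast (_ ^ _) j,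
              ← Real.rpow_mul (by norm_num)]
            congr 1
            ring
          have e3 : L ^ (e + -γ) = L ^ (-(γ - e)) := by congr 1; ring
          rw [e2, e3]
          ring
  refine (Finset.sum_le_sum hj).trans ?_
  rw [← Finset.mul_sum]
  have hgeo : ∑ j ∈ range M, ρ ^ j ≤ (1 - ρ)⁻¹ := by
    rw [← tsum_geometric_of_lt_one hρ0.le hρ1]
    exact (summable_geometric_of_lt_one hρ0.le hρ1).sum_le_tsum _ (fun j _ => by positivity)
  calc C * 2 ^ e * L ^ (-(γ - e)) * ∑ j ∈ range M, ρ ^ j ≤ C * 2 ^ e * L ^ (-(γ - e)) * (1 - ρ)⁻¹ := by gcongr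
    _ = C * 2 ^ e * (1 - ρ)⁻¹ * L ^ (-(γ - e)) := by ring

end Pool.Agent.U766.OP
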