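import Mathlib
import Pool.Agent.U766.OP.Net
import Pool.Agent.U766.OP.Lim

/-!
# Primes near the values of expanding families of functions
-/

set_option autoImplicit false

namespace Pool.Agent.U766.OP

open Finset Filter Topology Pool.Agent.Q240.KS

/-- all intervals of length `H ≥ x ^ (1 - lam - δ)` at a distance of at most `x ^ (1 - lam + δ)` from `x` contain at least
`c H / log x` primes -/
def Regular (c δ lam x : ℝ) : Prop :=
  ∀ a H : ℝ, x - x ^ (1 - lam + δ) ≤ a → a + H ≤ x + x ^ (1 - lam + δ) → x ^ (1 - lam - δ) ≤ H →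
    c * H / Real.log x ≤ (pic a H : ℝ)

/-- expanding families -/
structure Family (u v τ : ℝ) (F : ℕ → ℝ → ℝ) : Prop where
  one_le : ∀ n, ∀ x ∈ Set.Icc u v, 1 ≤ F n x
  expand : ∀ ε : ℝ, 0 < ε → ∃ n0 : ℕ, ∀ n : ℕ, n0 ≤ n → ∀ x ∈ Set.Icc u v, ∀ y ∈ Set.Icc u v, x < y →
    (F n x) ^ (1 - ε) * (y - x) ≤ F n y - F n x
  conv : ∀ t : ℝ, τ < t → Summable (fun n : ℕ => (F n u) ^ (-t))

/-- `x` large and not regular: there is a point of the net near `x` -/
theorem near_net {lam0 c1 η κ : ℝ} (hc1 : 0 < c1) (hl0 : 0.15 ≤ lam0) (hl1 : lam0 ≤ 0.9) (hη : 0 < η)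
    (hη1 : η ≤ 0.01) (hκ : 0 < κ) (hκ1 : κ ≤ 0.01) (hκη : κ ≤ η) (S : Set ℝ)
    (hS : ∀ y : ℝ, 2 ≤ y → Poor c1 (1 - lam0 - η) y → ∃ s ∈ S, |s - y| ≤ y ^ (1 - lam0 - η)) :
    ∀ᶠ x : ℝ in atTop, (8 ≤ x ∧ x ^ (1 - lam0 + κ) ≤ x / 2) ∧
      (¬ Regular (c1 / 16) (κ / 4) lam0 x → ∃ s ∈ S, |s - x| ≤ x ^ (1 - lam0 + κ)) := by
  set θ : ℝ := 1 - lam0 - η with hθ
  have hθ0 : 0 < θ := by rw [hθ]; linarith
  have hθ1 : θ ≤ 1 := by rw [hθ]; linarith
  have aux : ∀ α β C : ℝ, α < β → ∀ᶠ x : ℝ in atTop, C * x ^ α ≤ x ^ β := by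
    intro α β C hαβ
    have t1 : Tendsto (fun x : ℝ => x ^ (β - α)) atTop atTop := tendsto_rpow_atTop (by linarith)
    filter_upwards [t1.eventually_ge_atTop C, eventually_gt_atTop 0] with x h1 h2
    calc C * x ^ α ≤ x ^ (β - α) * x ^ α := by gcongr
      _ = x ^ β := by rw [← Real.rpow_add h2]; congr 1; ring
  filter_upwards [eventually_ge_atTop 8, aux (1 - lam0 + κ) 1 2 (by linarith),
    aux (1 - lam0 + κ / 4) (1 - lam0 + κ) 2 (by linarith), aux θ (1 - lam0 + κ) 4 (by rw [hθ]; linarith),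
    aux θ (1 - lam0 - κ / 4) 2 (by rw [hθ]; linarith)] with x h8 h1 h2 h3 h4
  rw [Real.rpow_one] at h1
  refine ⟨⟨h8, by linarith⟩, fun hR => ?_⟩
  unfold Regular at hR
  push Not at hR
  obtain ⟨a, H, g1, g2, g3, g4⟩ := hR
  have hx0 : 0 < x := by linarith
  have hκ4 : x ^ (1 - lam0 + κ / 4) ≤ x ^ (1 - lam0 + κ) :=
    Real.rpow_le_rpow_of_exponent_le (by linarith) (by linarith)
  have hH0 : 0 < H := lt_of_lt_of_le (Real.rpow_pos_of_pos hx0 _) g3
  have h2θ : (2 * x) ^ θ ≤ 2 * x ^ θ := by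
    rw [Real.mul_rpow (by norm_num) hx0.le]
    have e1 : (2 : ℝ) ^ θ ≤ 2 := by
      calc (2 : ℝ) ^ θ ≤ 2 ^ (1 : ℝ) := Real.rpow_le_rpow_of_exponent_le (by norm_num) hθ1
        _ = 2 := Real.rpow_one 2
    gcongr
  obtain ⟨y, y1, y2, y3⟩ := exists_poor (c := c1) (θ := θ) hc1 hθ0 hθ1 (x := x / 2) (a := a) (H := H)
    (by linarith) (by linarith) (by linarith) (by
      rw [show 4 * (x / 2) = 2 * x by ring]
      linarith) (by
      refine lt_of_lt_of_le g4 ?_
      have hl1' : 0 < Real.log (x / 2) := Real.log_pos (by linarith)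
      have hl2 : Real.log (x / 2) ≤ Real.log x := Real.log_le_log (by linarith) (by linarith)
      gcongr)
  have hy2 : 2 ≤ y := by linarith
  have hyθ : 0 < y ^ θ := Real.rpow_pos_of_pos (by linarith) _
  obtain ⟨s, hs, hsy⟩ := hS y hy2 y3
  refine ⟨s, hs, ?_⟩
  have hyx : y ≤ 2 * x := by linarith
  have h5 : y ^ θ ≤ 2 * x ^ θ := (Real.rpow_le_rpow (by linarith) hyx hθ0.le).trans h2θ
  have h6 : |y - x| ≤ x ^ (1 - lam0 + κ / 4) := by
    rw [abs_le]
    constructor <;> linarith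
  calc |s - x| ≤ |s - y| + |y - x| := abs_sub_le s y x
    _ ≤ 2 * x ^ θ + x ^ (1 - lam0 + κ / 4) := by linarith
    _ ≤ x ^ (1 - lam0 + κ) := by linarith

theorem family_dim {lam0 e0 : ℝ} (hM : MAINP lam0 e0) (hl0 : 0.2 ≤ lam0) (hl1 : lam0 ≤ 0.9) (he0 : 0.01 ≤ e0)
    (he1 : e0 ≤ 1) :
    ∃ c δ : ℝ, 0 < c ∧ 0 < δ ∧ ∀ (u v τ : ℝ) (F : ℕ → ℝ → ℝ), u < v → 0 ≤ τ → τ ≤ 1 → Family u v τ F →
      dimH {x : ℝ | x ∈ Set.Icc u v ∧ ¬ ∀ᶠ n : ℕ in atTop, Regular c δ lam0 (F n x)} ≤
        ENNReal.ofReal ((e0 + τ) / lam0 - δ) := by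
  classical
  obtain ⟨c1, η, C, hc1, hη, hη1, hC, S, hS1, hS2, hS3⟩ := net hM hl0 hl1 he0 he1
  set κ : ℝ := lam0 * η / 16 with hκ
  have hκ0 : 0 < κ := by rw [hκ]; positivity
  have hκη : κ ≤ η / 16 := by rw [hκ]; nlinarith
  obtain ⟨X1, hX1⟩ := eventually_atTop.1 (near_net (lam0 := lam0) (κ := κ) hc1 (by linarith) hl1 hη hη1 hκ0
    (by linarith) (by linarith) S hS3)
  refine ⟨c1 / 16, κ / 4, by positivity, by positivity, fun u v τ F huv hτ0 hτ1 hF => ?_⟩
  set g : ℝ := lam0 - 2 * κ with hg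
  have hg0 : 0 < g := by rw [hg]; nlinarith
  set D : ℝ := (e0 + τ) / lam0 - κ / 4 with hD
  have hlam : 0 < lam0 := by linarith
  have hDlow : 0.01 ≤ (e0 + τ) / lam0 := by
    rw [le_div_iff₀ hlam]
    nlinarith
  have hD0 : 0 < D := by rw [hD]; linarith
  set e' : ℝ := e0 - η with he'
  have he'0 : 0 ≤ e' := by rw [he']; linarith
  have hgD : e' + τ < g * D := by
    have e1 : lam0 * D = e0 + τ - lam0 * (κ / 4) := by
      rw [hD, mul_sub, mul_div_cancel₀ _ hlam.ne']
    have e2 : D ≤ 2 / lam0 := by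
      rw [hD]
      have : (e0 + τ) / lam0 ≤ 2 / lam0 := by gcongr; linarith
      linarith
    have e3 : 2 * κ * D ≤ η / 4 := by
      calc 2 * κ * D ≤ 2 * κ * (2 / lam0) := by gcongr
        _ = η / 4 := by rw [hκ]; field_simp; ring
    have e4 : g * D = lam0 * D - 2 * κ * D := by rw [hg]; ring
    rw [e4, e1]
    nlinarith
  obtain ⟨K, hK0, hK⟩ := tail_sum (γ := g * D) hC he'0 (by linarith) hS1
  -- the values tend to infinity
  have huI : u ∈ Set.Icc u v := ⟨le_rfl, huv.le⟩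
  have hvI : v ∈ Set.Icc u v := ⟨huv.le, le_rfl⟩
  have hFu : Tendsto (fun n => F n u) atTop atTop := by
    have h1 := (hF.conv (τ + 1) (by linarith)).tendsto_atTop_zero
    rw [tendsto_atTop]
    intro b
    have hb : 0 < (max b 1) ^ (-(τ + 1)) := Real.rpow_pos_of_pos (lt_of_lt_of_le one_pos (le_max_right _ _)) _
    filter_upwards [h1.eventually (gt_mem_nhds hb)] with n hn
    by_contra hcon
    rw [not_le] at hcon
    have h2 : F n u ≤ max b 1 := hcon.le.trans (le_max_left _ _)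
    have h3 : (max b 1) ^ (-(τ + 1)) ≤ (F n u) ^ (-(τ + 1)) :=
      Real.rpow_le_rpow_of_nonpos (by linarith [hF.one_le n u huI]) h2 (by linarith)
    linarith
  obtain ⟨n2, hn2⟩ := hF.expand κ hκ0
  obtain ⟨n3, hn3⟩ := eventually_atTop.1 (hFu.eventually_ge_atTop (max X1 8))
  set n1 : ℕ := max n2 n3 with hn1
  have hn12 : ∀ n, n1 ≤ n → n2 ≤ n := fun n hn => (le_max_left _ _).trans hn
  have hn13 : ∀ n, n1 ≤ n → n3 ≤ n := fun n hn => (le_max_right _ _).trans hn
  have hmono : ∀ n, n1 ≤ n → ∀ x ∈ Set.Icc u v, ∀ y ∈ Set.Icc u v, x ≤ y → F n x ≤ F n y := by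
    intro n hn x hx y hy hxy
    rcases hxy.eq_or_lt with h | h
    · rw [h]
    · have h1 := hn2 n (hn12 n hn) x hx y hy h
      have h2 : 0 ≤ (F n x) ^ (1 - κ) * (y - x) :=
        mul_nonneg (Real.rpow_nonneg (by linarith [hF.one_le n x hx]) _) (by linarith)
      linarith
  have hlarge : ∀ n, n1 ≤ n → ∀ x ∈ Set.Icc u v, max X1 8 ≤ F n x := fun n hn x hx =>
    (hn3 n (hn13 n hn)).trans (hmono n hn u huI x hx hx.1)
  set ν : ℝ := 1 - lam0 + κ with hν
  set A : ℕ → Set ℝ := fun n => {x | n1 ≤ n ∧ x ∈ Set.Icc u v ∧ ∃ s ∈ S, |s - F n x| ≤ (F n x) ^ ν} with hA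
  have hfinS : ∀ n, {s | s ∈ S ∧ s ≤ 2 * F n v}.Finite := fun n =>
    (hS1 (2 * F n v) (by linarith [hF.one_le n v hvI])).1
  set T : ℕ → Finset ℝ := fun n => if n1 ≤ n then (hfinS n).toFinset.filter (fun s => F n u / 2 ≤ s) else ∅ with hT
  set V : ℕ → ℝ → Set ℝ := fun n s => {x | n1 ≤ n ∧ x ∈ Set.Icc u v ∧ |s - F n x| ≤ (F n x) ^ ν} with hV
  have hTmem : ∀ n, ∀ s ∈ T n, n1 ≤ n ∧ s ∈ S ∧ F n u / 2 ≤ s := by
    intro n s hs
    rw [hT] at hs
    simp only at hs
    split_ifs at hs with h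
    · rw [mem_filter, Set.Finite.mem_toFinset] at hs
      exact ⟨h, hs.1.1, hs.2⟩
    · exact absurd hs (Finset.notMem_empty s)
  have hsize : ∀ n, n1 ≤ n → ∀ x ∈ Set.Icc u v, ∀ s : ℝ, |s - F n x| ≤ (F n x) ^ ν →
      F n x / 2 ≤ s ∧ s ≤ 2 * F n x ∧ s / 2 ≤ F n x ∧ F n x ≤ 2 * s := by
    intro n hn x hx s hs
    have h1 := hlarge n hn x hx
    have h2 := (hX1 (F n x) ((le_max_left _ _).trans h1)).1
    rw [abs_le] at hs
    have h3 := h2.2
    have h8 := h2.1
    refine ⟨by linarith, by linarith, by linarith, by linarith⟩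
  have hmain := limsup_dim hD0 A T V (fun _ s => 8 * s ^ (-g)) (fun n => 8 * (F n u / 2) ^ (-g))
    (fun m t ht => by
      obtain ⟨h1, h2, h3⟩ := hTmem m t ht
      have := hS2 t h2
      positivity)
    (fun m x hx => by
      obtain ⟨h1, h2, s, hs, h3⟩ := hx
      obtain ⟨g1, g2, g3, g4⟩ := hsize m h1 x h2 s h3
      refine ⟨s, ?_, h1, h2, h3⟩
      rw [hT]
      simp only [h1, if_true]
      rw [mem_filter, Set.Finite.mem_toFinset]
      have g5 := hmono m h1 x h2 v hvI h2.2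
      have g6 := hmono m h1 u huI x h2 h2.1
      exact ⟨⟨hs, by linarith⟩, by linarith⟩)
    (fun m s hs => by
      obtain ⟨h1, h2, h3⟩ := hTmem m s hs
      have hs2 := hS2 s h2
      have key : ∀ x ∈ V m s, ∀ y ∈ V m s, x < y → y - x ≤ 8 * s ^ (-g) := by
        rintro x ⟨-, hx, hx2⟩ y ⟨-, hy, hy2⟩ hlt
        obtain ⟨a1, a2, a3, a4⟩ := hsize m h1 x hx s hx2
        obtain ⟨b1, b2, b3, b4⟩ := hsize m h1 y hy s hy2
        have e1 := hn2 m (hn12 m h1) x hx y hy hlt
        have hFx : 0 < F m x := by linarith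
        have hFy : 0 < F m y := by linarith
        have hν0 : 0 ≤ ν := by rw [hν]; linarith
        have hν1 : ν ≤ 1 := by rw [hν]; nlinarith
        have h2ν : ∀ z : ℝ, 0 < z → z ≤ 2 * s → z ^ ν ≤ 2 * s ^ ν := by
          intro z hz hzs
          calc z ^ ν ≤ (2 * s) ^ ν := Real.rpow_le_rpow hz.le hzs hν0
            _ = 2 ^ ν * s ^ ν := Real.mul_rpow (by norm_num) (by linarith)
            _ ≤ 2 * s ^ ν := by
                gcongr
                calc (2 : ℝ) ^ ν ≤ 2 ^ (1 : ℝ) := Real.rpow_le_rpow_of_exponent_le (by norm_num) hν1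
                  _ = 2 := Real.rpow_one 2
        have e2 : F m y - F m x ≤ 4 * s ^ ν := by
          have c1' := h2ν (F m x) hFx a4
          have c2 := h2ν (F m y) hFy b4
          rw [abs_le] at hx2 hy2
          linarith [hx2.2, hy2.1]
        have e3 : s ^ (1 - κ) / 2 ≤ (F m x) ^ (1 - κ) := by
          have hk1 : 0 ≤ 1 - κ := by linarith
          calc s ^ (1 - κ) / 2 ≤ s ^ (1 - κ) / 2 ^ (1 - κ) := by
                apply div_le_div_of_nonneg_left (by positivity) (by positivity)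
                calc (2 : ℝ) ^ (1 - κ) ≤ 2 ^ (1 : ℝ) :=
                      Real.rpow_le_rpow_of_exponent_le (by norm_num) (by linarith)
                  _ = 2 := Real.rpow_one 2
            _ = (s / 2) ^ (1 - κ) := (Real.div_rpow (by linarith) (by norm_num) _).symm
            _ ≤ (F m x) ^ (1 - κ) := Real.rpow_le_rpow (by linarith) a3 hk1
        have hyx : 0 < y - x := by linarith
        have e4 : s ^ (1 - κ) / 2 * (y - x) ≤ 4 * s ^ ν :=
          (mul_le_mul_of_nonneg_right e3 hyx.le).trans (e1.trans e2)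
        have hsp : 0 < s ^ (1 - κ) := Real.rpow_pos_of_pos (by linarith) _
        have e5 : y - x ≤ 8 * s ^ ν / s ^ (1 - κ) := by
          rw [le_div_iff₀ hsp]
          linarith
        refine e5.trans (le_of_eq ?_)
        rw [mul_div_assoc, ← Real.rpow_sub (by linarith)]
        congr 2
        rw [hν, hg]
        ring
      apply Metric.ediam_le
      intro x hx y hy
      rw [edist_dist]
      apply ENNReal.ofReal_le_ofReal
      rw [Real.dist_eq]
      rcases lt_trichotomy x y with h | h | h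
      · rw [abs_sub_comm, abs_of_pos (by linarith)]
        exact key x hx y hy h
      · rw [h, sub_self, abs_zero]
        positivity
      · rw [abs_of_pos (by linarith)]
        exact key y hy x hx h)
    (fun m s hs => by
      obtain ⟨h1, h2, h3⟩ := hTmem m s hs
      have h4 := hlarge m h1 u huI
      have h5 : 8 ≤ F m u := (le_max_right _ _).trans h4
      have h6 : s ^ (-g) ≤ (F m u / 2) ^ (-g) := Real.rpow_le_rpow_of_nonpos (by linarith) h3 (by linarith)
      show 8 * s ^ (-g) ≤ 8 * (F m u / 2) ^ (-g)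
      linarith)
    (by
      have h1 : Tendsto (fun n => F n u / 2) atTop atTop := hFu.atTop_div_const (by norm_num)
      have h2 := ((tendsto_rpow_neg_atTop hg0).comp h1).const_mul 8
      rw [mul_zero] at h2
      exact h2)
    (by
      set t : ℝ := g * D - e' with ht
      have ht1 : τ < t := by rw [ht]; linarith
      have hs1 : Summable (fun n : ℕ => (8 ^ D * K * 2 ^ t) * (F n u) ^ (-t)) := (hF.conv t ht1).mul_left _
      refine Summable.of_nonneg_of_le (fun m => ?_) (fun m => ?_) hs1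
      · apply Finset.sum_nonneg
        intro s hs
        have := hS2 s (hTmem m s hs).2.1
        positivity
      · have hFm : 1 ≤ F m u := hF.one_le m u huI
        by_cases hm : n1 ≤ m
        · have h5 : 8 ≤ F m u := (le_max_right _ _).trans (hlarge m hm u huI)
          calc ∑ s ∈ T m, (8 * s ^ (-g)) ^ D = ∑ s ∈ T m, 8 ^ D * s ^ (-(g * D)) := by
                apply Finset.sum_congr rfl
                intro s hs
                have hs2 := hS2 s (hTmem m s hs).2.1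
                rw [Real.mul_rpow (by norm_num) (by positivity), ← Real.rpow_mul (by linarith)]
                congr 2
                ring
            _ = 8 ^ D * ∑ s ∈ T m, s ^ (-(g * D)) := by rw [Finset.mul_sum]
            _ ≤ 8 ^ D * (K * (F m u / 2) ^ (-t)) := by
                apply mul_le_mul_of_nonneg_left _ (by positivity)
                exact hK (F m u / 2) (by linarith) (T m) (fun s hs => ⟨(hTmem m s hs).2.1, (hTmem m s hs).2.2⟩)
            _ = (8 ^ D * K * 2 ^ t) * (F m u) ^ (-t) := by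
                rw [Real.div_rpow (by linarith) (by norm_num), Real.rpow_neg (by norm_num : (0 : ℝ) ≤ 2)]
                field_simp
        · have hTe : T m = ∅ := by
            rw [hT]
            simp only [hm, if_false]
          rw [hTe, Finset.sum_empty]
          positivity)
  refine (dimH_mono ?_).trans hmain
  rintro x ⟨hx, hne⟩ N
  rw [eventually_atTop] at hne
  push Not at hne
  obtain ⟨n, hn, hR⟩ := hne (max N n1)
  have hnN : N ≤ n := (le_max_left _ _).trans hn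
  have hnn1 : n1 ≤ n := (le_max_right _ _).trans hn
  refine ⟨n, hnN, hnn1, hx, ?_⟩
  exact (hX1 (F n x) ((le_max_left _ _).trans (hlarge n hnn1 x hx))).2 hR

end Pool.Agent.U766.OP
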