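import Mathlib
import Pool.Agent.U766.OP.Fam

/-!
# Examples of expanding families: multiples and powers; all long intervals
-/

set_option autoImplicit false

namespace Pool.Agent.U766.OP

open Finset Filter Topology Pool.Agent.Q240.KS

lemma tendsto_of_summable {w : ℕ → ℝ} {t : ℝ} (hw : ∀ n, 1 ≤ w n) (ht : 0 < t)
    (h : Summable (fun n => (w n) ^ (-t))) : Tendsto w atTop atTop := by
  have h1 := h.tendsto_atTop_zero
  rw [tendsto_atTop]
  intro b
  have hb : 0 < (max b 1) ^ (-t) := Real.rpow_pos_of_pos (lt_of_lt_of_le one_pos (le_max_right _ _)) _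
  filter_upwards [h1.eventually (gt_mem_nhds hb)] with n hn
  by_contra hcon
  rw [not_le] at hcon
  have h2 : w n ≤ max b 1 := hcon.le.trans (le_max_left _ _)
  have h3 : (max b 1) ^ (-t) ≤ (w n) ^ (-t) :=
    Real.rpow_le_rpow_of_nonpos (by linarith [hw n]) h2 (by linarith)
  linarith

theorem family_mul {w : ℕ → ℝ} {τ u v : ℝ} (hw : ∀ n, 1 ≤ w n) (hτ : 0 ≤ τ)
    (hs : ∀ t : ℝ, τ < t → Summable (fun n => (w n) ^ (-t))) (hu : 1 ≤ u) :
    Family u v τ (fun n x => x * w n) := by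
  refine ⟨fun n x hx => ?_, fun ε hε => ?_, fun t ht => ?_⟩
  · have := hw n
    have hx1 : 1 ≤ x := hu.trans hx.1
    nlinarith
  · have hwt : Tendsto w atTop atTop := tendsto_of_summable hw (t := τ + 1) (by linarith) (hs _ (by linarith))
    have h1 : Tendsto (fun n => (w n) ^ ε) atTop atTop := (tendsto_rpow_atTop hε).comp hwt
    obtain ⟨n0, hn0⟩ := eventually_atTop.1 (h1.eventually_ge_atTop ((max v 1) ^ |1 - ε|))
    refine ⟨n0, fun n hn x hx y hy hxy => ?_⟩
    have hx1 : 1 ≤ x := hu.trans hx.1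
    have hx0 : 0 < x := by linarith
    have hwn := hw n
    have e1 : y * w n - x * w n = w n * (y - x) := by ring
    rw [e1]
    apply mul_le_mul_of_nonneg_right _ (by linarith)
    have h2 := hn0 n hn
    have h3 : x ^ (1 - ε) ≤ (max v 1) ^ |1 - ε| := by
      calc x ^ (1 - ε) ≤ x ^ |1 - ε| := Real.rpow_le_rpow_of_exponent_le hx1 (le_abs_self _)
        _ ≤ (max v 1) ^ |1 - ε| := Real.rpow_le_rpow hx0.le (hx.2.trans (le_max_left _ _)) (abs_nonneg _)
    rw [Real.mul_rpow hx0.le (by linarith)]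
    calc x ^ (1 - ε) * (w n) ^ (1 - ε) ≤ (w n) ^ ε * (w n) ^ (1 - ε) := by
          apply mul_le_mul_of_nonneg_right (h3.trans h2) (by positivity)
      _ = w n := by
          rw [← Real.rpow_add (by linarith), show ε + (1 - ε) = 1 by ring, Real.rpow_one]
  · have h1 := (hs t ht).mul_left (u ^ (-t))
    refine h1.congr (fun n => ?_)
    show u ^ (-t) * (w n) ^ (-t) = (u * w n) ^ (-t)
    rw [Real.mul_rpow (by linarith) (by linarith [hw n])]

theorem family_pow {w : ℕ → ℝ} {u v : ℝ} (hw : ∀ n, 1 ≤ w n)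
    (hlim : Tendsto (fun n : ℕ => w n / Real.log n) atTop atTop) (hu : 1 < u) :
    Family u v 0 (fun n x => x ^ w n) := by
  have hlogt : Tendsto (fun n : ℕ => Real.log (n : ℝ)) atTop atTop :=
    Real.tendsto_log_atTop.comp tendsto_natCast_atTop_atTop
  refine ⟨fun n x hx => ?_, fun ε hε => ?_, fun t ht => ?_⟩
  · exact Real.one_le_rpow (by linarith [hx.1]) (by linarith [hw n])
  · have hwt : Tendsto w atTop atTop := by
      rw [tendsto_atTop]
      intro b
      filter_upwards [hlim.eventually_ge_atTop (max b 0), hlogt.eventually_ge_atTop 1] with n h1 h2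
      rw [le_div_iff₀ (by linarith)] at h1
      have h3 : max b 0 ≤ max b 0 * Real.log n := le_mul_of_one_le_right (le_max_right _ _) h2
      exact (le_max_left _ _).trans (h3.trans h1)
    obtain ⟨n0, hn0⟩ := eventually_atTop.1 (hwt.eventually_ge_atTop (1 / ε))
    refine ⟨n0, fun n hn x hx y hy hxy => ?_⟩
    have hx1 : 1 ≤ x := by linarith [hx.1]
    have hx0 : 0 < x := by linarith
    have hwn := hw n
    have h1 : 1 ≤ w n * ε := by
      have := hn0 n hn
      rwa [div_le_iff₀ hε] at this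
    have hb : 1 + w n * ((y - x) / x) ≤ (1 + (y - x) / x) ^ (w n) :=
      one_add_mul_self_le_rpow_one_add (by
        have : 0 ≤ (y - x) / x := div_nonneg (by linarith) hx0.le
        linarith) hwn
    have e1 : 1 + (y - x) / x = y / x := by field_simp; ring
    rw [e1, Real.div_rpow (by linarith) hx0.le] at hb
    have hxw : 0 < x ^ w n := Real.rpow_pos_of_pos hx0 _
    rw [le_div_iff₀ hxw] at hb
    have e2 : (1 + w n * ((y - x) / x)) * x ^ w n = x ^ w n + w n * (x ^ w n / x) * (y - x) := by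
      field_simp
    rw [e2] at hb
    have h2 : (x ^ w n) ^ (1 - ε) ≤ w n * (x ^ w n / x) := by
      have e3 : x ^ w n / x = x ^ (w n - 1) := (Real.rpow_sub_one hx0.ne' _).symm
      rw [e3, ← Real.rpow_mul hx0.le]
      calc x ^ (w n * (1 - ε)) ≤ x ^ (w n - 1) := by
            apply Real.rpow_le_rpow_of_exponent_le hx1
            nlinarith
        _ ≤ w n * x ^ (w n - 1) := le_mul_of_one_le_left (by positivity) hwn
    show (x ^ w n) ^ (1 - ε) * (y - x) ≤ y ^ w n - x ^ w n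
    have h3 := mul_le_mul_of_nonneg_right h2 (show 0 ≤ y - x by linarith)
    linarith
  · have hlu : 0 < Real.log u := Real.log_pos hu
    have hs : Summable (fun n : ℕ => ((n : ℝ) ^ (2 : ℝ))⁻¹) := Real.summable_nat_rpow_inv.2 (by norm_num)
    apply summable_of_isBigO_nat hs
    apply Asymptotics.IsBigO.of_bound 1
    filter_upwards [hlim.eventually_ge_atTop (2 / (t * Real.log u)), hlogt.eventually_ge_atTop 1,
      eventually_ge_atTop 1] with n h1 h2 h3
    have hn0 : (0 : ℝ) < n := by exact_mod_cast h3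
    rw [le_div_iff₀ (by linarith)] at h1
    have e1 : (u ^ w n) ^ (-t) = Real.exp (-(t * Real.log u * w n)) := by
      rw [← Real.rpow_mul (by linarith), Real.rpow_def_of_pos (by linarith)]
      congr 1
      ring
    have e2 : ((n : ℝ) ^ (2 : ℝ))⁻¹ = Real.exp (-(2 * Real.log n)) := by
      rw [Real.rpow_def_of_pos hn0, ← Real.exp_neg]
      congr 1
      ring
    rw [e1, e2, one_mul, Real.norm_of_nonneg (Real.exp_pos _).le, Real.norm_of_nonneg (Real.exp_pos _).le,
      Real.exp_le_exp, neg_le_neg_iff]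
    have ht0 : 0 < t * Real.log u := by positivity
    have h4 : 2 / (t * Real.log u) * Real.log n * (t * Real.log u) ≤ w n * (t * Real.log u) := by gcongr
    have e3 : 2 / (t * Real.log u) * Real.log n * (t * Real.log u) = 2 * Real.log n := by field_simp
    rw [e3] at h4
    linarith

lemma pic_sum (a ℓ : ℝ) (hℓ : 0 ≤ ℓ) (k : ℕ) : pic a (k * ℓ) = ∑ i ∈ range k, pic (a + i * ℓ) ℓ := by
  induction k with
  | zero => simp [pic]
  | succ k ih =>
    have e : ((k + 1 : ℕ) : ℝ) * ℓ = k * ℓ + ℓ := by push_cast; ring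
    rw [e, pic_add (by positivity) hℓ, ih, Finset.sum_range_succ]

/-- all long intervals contain many primes -/
theorem all_long {lam0 e0 : ℝ} (hM : MAINP lam0 e0) (hl0 : 0.2 ≤ lam0) (hl1 : lam0 ≤ 0.9) (he0 : 0.01 ≤ e0)
    (he1 : e0 ≤ 1) :
    ∃ c δ : ℝ, 0 < c ∧ 0 < δ ∧ δ ≤ 0.01 ∧ ∀ᶠ x : ℝ in atTop, ∀ a H : ℝ, x ≤ a → a + H ≤ 4 * x →
      x ^ (1 - lam0 + e0 - δ) ≤ H → c * H / Real.log x ≤ (pic a H : ℝ) := by
  classical
  obtain ⟨c1, η, C, hc1, hη, hη1, hC, hcount⟩ := count_poor hM hl0 hl1 he0 he1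
  set θ : ℝ := 1 - lam0 - η with hθ
  have hθ0 : 0 < θ := by rw [hθ]; linarith
  have hθ1 : θ ≤ 1 := by rw [hθ]; linarith
  refine ⟨c1 / 32, η, by positivity, hη, hη1, ?_⟩
  have hev : ∀ᶠ x : ℝ in atTop, 16 * (4 * C + 1) ≤ x ^ η := (tendsto_rpow_atTop hη).eventually_ge_atTop _
  filter_upwards [eventually_ge_atTop 4, hev] with x hx hev a H ha haH hH
  by_contra hcon
  rw [not_le] at hcon
  set ℓ : ℝ := (4 * x) ^ θ with hℓ
  have hx0 : 0 < x := by linarith
  have hℓ0 : 0 < ℓ := Real.rpow_pos_of_pos (by linarith) _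
  have hℓ4 : ℓ ≤ 4 * x ^ θ := by
    rw [hℓ, Real.mul_rpow (by norm_num) hx0.le]
    gcongr
    calc (4 : ℝ) ^ θ ≤ 4 ^ (1 : ℝ) := Real.rpow_le_rpow_of_exponent_le (by norm_num) hθ1
      _ = 4 := Real.rpow_one 4
  have hlx : 1 < Real.log x := by
    have h1 : Real.log 4 ≤ Real.log x := Real.log_le_log (by norm_num) hx
    have h2 : Real.log 4 = 2 * Real.log 2 := by
      rw [show (4 : ℝ) = 2 ^ 2 by norm_num, Real.log_pow]; norm_num
    have := Real.log_two_gt_d9
    linarith
  have hl4 : Real.log (4 * x) ≤ 2 * Real.log x := by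
    rw [Real.log_mul (by norm_num) hx0.ne']
    have h1 : Real.log 4 ≤ Real.log x := Real.log_le_log (by norm_num) hx
    linarith
  -- H / ℓ is large
  have hHℓ : 4 * (4 * C + 1) * x ^ (e0 - η) ≤ H / ℓ := by
    rw [le_div_iff₀ hℓ0]
    refine le_trans ?_ hH
    calc 4 * (4 * C + 1) * x ^ (e0 - η) * ℓ ≤ 4 * (4 * C + 1) * x ^ (e0 - η) * (4 * x ^ θ) := by gcongr
      _ = (16 * (4 * C + 1)) * (x ^ (e0 - η) * x ^ θ) := by ring
      _ ≤ x ^ η * (x ^ (e0 - η) * x ^ θ) := by gcongr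
      _ = x ^ (1 - lam0 + e0 - η) := by
          rw [← Real.rpow_add hx0, ← Real.rpow_add hx0]
          congr 1
          rw [hθ]
          ring
  have hxe : 1 ≤ x ^ (e0 - η) := Real.one_le_rpow (by linarith) (by linarith)
  have hH0 : 0 < H := lt_of_lt_of_le (Real.rpow_pos_of_pos hx0 _) hH
  set k : ℕ := ⌊H / ℓ⌋₊ with hk
  have hk1 : (k : ℝ) * ℓ ≤ H := by
    have := Nat.floor_le (show 0 ≤ H / ℓ by positivity)
    rw [← hk] at this
    rwa [le_div_iff₀ hℓ0] at this
  have hkgt : H / ℓ < k + 1 := Nat.lt_floor_add_one _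
  have hk4 : 2 * (4 * C + 1) * x ^ (e0 - η) ≤ k ∧ H ≤ 2 * k * ℓ := by
    have h1 : 1 ≤ (4 * C + 1) * x ^ (e0 - η) := by nlinarith
    have h2 : 4 ≤ H / ℓ := by linarith
    have h3 : H / ℓ ≤ 2 * k := by linarith
    refine ⟨by linarith, ?_⟩
    rwa [div_le_iff₀ hℓ0] at h3
  set t : ℝ := c1 * ℓ / (8 * Real.log x) with ht
  set bad : Finset ℕ := (range k).filter (fun i => (pic (a + i * ℓ) ℓ : ℝ) < t) with hbad
  set good : Finset ℕ := (range k).filter (fun i => ¬ (pic (a + i * ℓ) ℓ : ℝ) < t) with hgood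
  have hsplit : bad.card + good.card = k := by
    rw [hbad, hgood, Finset.card_filter_add_card_filter_not, card_range]
  have hgoodc : (good.card : ℝ) * t ≤ (pic a H : ℝ) := by
    have h1 : (good.card : ℝ) * t ≤ ∑ i ∈ good, (pic (a + i * ℓ) ℓ : ℝ) := by
      rw [← nsmul_eq_mul]
      apply Finset.card_nsmul_le_sum
      intro i hi
      exact not_lt.1 (mem_filter.1 hi).2
    have h2 : ∑ i ∈ good, (pic (a + i * ℓ) ℓ : ℝ) ≤ ∑ i ∈ range k, (pic (a + i * ℓ) ℓ : ℝ) := by
      apply Finset.sum_le_sum_of_subset_of_nonneg (filter_subset _ _)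
      intro i _ _
      exact Nat.cast_nonneg _
    have h3 : ∑ i ∈ range k, (pic (a + i * ℓ) ℓ : ℝ) = (pic a (k * ℓ) : ℝ) := by
      rw [pic_sum a ℓ hℓ0.le k]
      push_cast
      rfl
    have h4 : ((pic a (k * ℓ) : ℕ) : ℝ) ≤ pic a H := by exact_mod_cast pic_mono hk1
    linarith
  have ht0 : 0 < t := by rw [ht]; positivity
  -- few good blocks
  have hgoodlt : (good.card : ℝ) < k / 2 := by
    by_contra hge
    rw [not_lt] at hge
    have h1 : (k : ℝ) / 2 * t ≤ (pic a H : ℝ) := (mul_le_mul_of_nonneg_right hge ht0.le).trans hgoodc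
    have h2 : c1 / 32 * H / Real.log x ≤ (k : ℝ) / 2 * t := by
      have e : (k : ℝ) / 2 * t = c1 / 32 * (2 * k * ℓ) / Real.log x := by
        rw [ht]; field_simp; ring
      rw [e]
      have := hk4.2
      gcongr
    linarith
  have hbadge : (k : ℝ) / 2 < bad.card := by
    have h1 : (bad.card : ℝ) + good.card = k := by exact_mod_cast hsplit
    linarith
  -- the bad blocks begin with poor points
  have hpoor : ∀ i ∈ bad, a ≤ a + i * ℓ ∧ a + i * ℓ + ℓ ≤ 4 * x ∧ Poor c1 θ (a + i * ℓ) := by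
    intro i hi
    rw [hbad, mem_filter, mem_range] at hi
    obtain ⟨hi1, hi2⟩ := hi
    have hi' : (i : ℝ) + 1 ≤ k := by exact_mod_cast hi1
    set y : ℝ := a + i * ℓ with hy
    have hya : a ≤ y := by
      rw [hy]
      have : 0 ≤ (i : ℝ) * ℓ := by positivity
      linarith
    have hyt : y + ℓ ≤ 4 * x := by
      have h1 : (i + 1 : ℝ) * ℓ ≤ k * ℓ := by gcongr
      have h2 : y + ℓ = a + (i + 1) * ℓ := by rw [hy]; ring
      rw [h2]
      linarith
    refine ⟨hya, hyt, ?_⟩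
    have hy0 : 0 < y := by linarith
    have hy4 : y ≤ 4 * x := by linarith
    have hyθ : y ^ θ ≤ ℓ := Real.rpow_le_rpow hy0.le hy4 hθ0.le
    unfold Poor
    have h2 : ((pic y (y ^ θ) : ℕ) : ℝ) ≤ pic y ℓ := by exact_mod_cast pic_mono hyθ
    refine lt_of_le_of_lt h2 (lt_of_lt_of_le hi2 ?_)
    have hly : 0 < Real.log y := by
      apply Real.log_pos
      linarith
    have hly2 : Real.log y ≤ 2 * Real.log x := (Real.log_le_log hy0 hy4).trans hl4
    have hℓy : ℓ / 4 ≤ y ^ θ := by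
      have h5 : x ^ θ ≤ y ^ θ := Real.rpow_le_rpow hx0.le (by linarith) hθ0.le
      linarith
    rw [ht, div_le_div_iff₀ (by positivity) hly]
    calc c1 * ℓ * Real.log y ≤ c1 * ℓ * (2 * Real.log x) := by gcongr
      _ = c1 * (ℓ / 4) * (8 * Real.log x) := by ring
      _ ≤ c1 * y ^ θ * (8 * Real.log x) := by gcongr
  have hinj : Set.InjOn (fun i : ℕ => a + i * ℓ) bad := by
    intro i _ j _ he
    simp only at he
    have h1 : ((i : ℝ) - j) * ℓ = 0 := by linarith
    rcases mul_eq_zero.1 h1 with h2 | h2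
    · have : (i : ℝ) = j := by linarith
      exact_mod_cast this
    · linarith
  have hc := hcount (4 * x) (by linarith) (bad.image (fun i : ℕ => a + i * ℓ)) (by
    intro y hy
    rw [mem_image] at hy
    obtain ⟨i, hi, rfl⟩ := hy
    obtain ⟨h1, h2, h3⟩ := hpoor i hi
    exact ⟨by linarith, by linarith, h3⟩) (by
    intro y hy y' hy' hlt
    rw [mem_image] at hy hy'
    obtain ⟨i, hi, rfl⟩ := hy
    obtain ⟨j, hj, rfl⟩ := hy'
    obtain ⟨h1, h2, h3⟩ := hpoor i hi
    have hij : (i : ℝ) < j := by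
      by_contra hcon2
      rw [not_lt] at hcon2
      have : (j : ℝ) * ℓ ≤ i * ℓ := by gcongr
      linarith
    have hij' : (i : ℝ) + 1 ≤ j := by
      have : i < j := by exact_mod_cast hij
      exact_mod_cast this
    have h4 : ((i : ℝ) + 1) * ℓ ≤ j * ℓ := by gcongr
    have h5 : (a + i * ℓ) ^ θ ≤ ℓ := Real.rpow_le_rpow (by linarith) (by linarith) hθ0.le
    linarith)
  rw [card_image_of_injOn hinj] at hc
  have h4x : (4 * x) ^ (e0 - η) ≤ 4 * x ^ (e0 - η) := by
    rw [Real.mul_rpow (by norm_num) hx0.le]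
    gcongr
    calc (4 : ℝ) ^ (e0 - η) ≤ 4 ^ (1 : ℝ) := Real.rpow_le_rpow_of_exponent_le (by norm_num) (by linarith)
      _ = 4 := Real.rpow_one 4
  have h6 : C * (4 * x) ^ (e0 - η) ≤ 4 * C * x ^ (e0 - η) := by
    have := mul_le_mul_of_nonneg_left h4x hC.le
    linarith
  nlinarith [hk4.1]

end Pool.Agent.U766.OP
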