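import Mathlib
import Pool.Agent.U766.OP.Sq
import Pool.Agent.X58.IV.Prm

/-!
# The numbers of primes between the squares of consecutive primes
-/

set_option autoImplicit false

namespace Pool.Agent.U766.OP

open Finset Filter

/-- the primes, numbered from `pr 0 = 2` -/
noncomputable def pr (i : ℕ) : ℕ := Nat.nth Nat.Prime i

/-- the gap after `pr i` -/
noncomputable def gp (i : ℕ) : ℝ := (pr (i + 1) : ℝ) - pr i

/-- the number of primes between the squares of consecutive primes -/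
noncomputable def NB (i : ℕ) : ℕ := ((Ioo (pr i ^ 2) (pr (i + 1) ^ 2)).filter Nat.Prime).card

lemma pr_prime (i : ℕ) : (pr i).Prime := Nat.prime_nth_prime i

lemma pr_mono : StrictMono pr := Nat.nth_strictMono Nat.infinite_setOfPred_prime

lemma pr_succ_le {i q : ℕ} (hq : q.Prime) (h : pr i < q) : pr (i + 1) ≤ q := by
  have h1 : pr (Nat.count Nat.Prime q) = q := Nat.nth_count hq
  have h2 : i + 1 ≤ Nat.count Nat.Prime q := by
    by_contra hcon
    have h3 : Nat.count Nat.Prime q ≤ i := by omega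
    have h4 := pr_mono.monotone h3
    omega
  have h5 := pr_mono.monotone h2
  omega

lemma pr_succ_le_two (i : ℕ) : pr (i + 1) ≤ 2 * pr i := by
  obtain ⟨q, hq, h1, h2⟩ := Nat.exists_prime_lt_and_le_two_mul (pr i) (pr_prime i).ne_zero
  exact (pr_succ_le hq h1).trans h2

lemma pr_two_le (i : ℕ) : 2 ≤ pr i := (pr_prime i).two_le

lemma one_le_gp (i : ℕ) : 1 ≤ gp i := by
  have h := pr_mono (Nat.lt_succ_self i)
  have h1 : (pr i : ℝ) + 1 ≤ pr (i + 1) := by exact_mod_cast h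
  unfold gp
  linarith

lemma self_le_pr (i : ℕ) : i ≤ pr i := pr_mono.le_apply

/-- upper bound -/
theorem NB_up : ∃ C : ℝ, 0 < C ∧ ∀ i : ℕ, (NB i : ℝ) ≤ C * (pr i * gp i / Real.log (pr i)) := by
  obtain ⟨C, hC, X₀, h⟩ := Pool.Agent.X58.IV.primes_up
  refine ⟨6 * C + 4 * (X₀ + 3) ^ 2, by positivity, fun i => ?_⟩
  set p := pr i with hp
  set p' := pr (i + 1) with hp'
  have hpp : p < p' := pr_mono (Nat.lt_succ_self i)
  have hp2 : p' ≤ 2 * p := pr_succ_le_two i
  have hp20 : 2 ≤ p := pr_two_le i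
  have hp20' : (2 : ℝ) ≤ p := by exact_mod_cast hp20
  have hlog : 0 < Real.log p := Real.log_pos (by linarith)
  have hgap : gp i = (p' : ℝ) - p := rfl
  have hg1 : 1 ≤ gp i := one_le_gp i
  have hbase : 1 ≤ p * gp i / Real.log p := by
    rw [le_div_iff₀ hlog, one_mul]
    have h1 : Real.log p ≤ p := (Real.log_le_sub_one_of_pos (by linarith)).trans (by linarith)
    nlinarith
  by_cases hsm : p < X₀ + 3
  · have h1 : NB i ≤ p' ^ 2 := by
      unfold NB
      refine (card_filter_le _ _).trans ?_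
      rw [Nat.card_Ioo]
      exact (Nat.sub_le _ _).trans (Nat.sub_le _ _)
    have h2 : (NB i : ℝ) ≤ (p' : ℝ) ^ 2 := by exact_mod_cast h1
    have h3 : (p' : ℝ) ≤ 2 * (X₀ + 3) := by
      have : p' ≤ 2 * (X₀ + 3) := by omega
      exact_mod_cast this
    have h4 : (p' : ℝ) ^ 2 ≤ 4 * (X₀ + 3) ^ 2 := by
      have : (0 : ℝ) ≤ p' := Nat.cast_nonneg _
      nlinarith
    calc (NB i : ℝ) ≤ 4 * (X₀ + 3) ^ 2 * 1 := by linarith
      _ ≤ (6 * C + 4 * (X₀ + 3) ^ 2) * (p * gp i / Real.log p) := by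
          apply mul_le_mul _ hbase zero_le_one (by positivity)
          linarith
  · push Not at hsm
    have hsub : (Ioo (p ^ 2) (p' ^ 2)).filter Nat.Prime ⊆
        (Ico p p').biUnion (fun m => (Ioc (m ^ 2) (m ^ 2 + (2 * m + 1))).filter Nat.Prime) := by
      intro q hq
      rw [mem_filter, mem_Ioo] at hq
      obtain ⟨⟨h1, h2⟩, h3⟩ := hq
      rw [mem_biUnion]
      have h4 := Nat.sqrt_le' q
      have h5 := Nat.lt_succ_sqrt' q
      have h6 : p ≤ Nat.sqrt q := by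
        rw [Nat.le_sqrt']
        exact h1.le
      have h7 : Nat.sqrt q < p' := by
        rw [Nat.sqrt_lt']
        exact h2
      refine ⟨Nat.sqrt q, mem_Ico.2 ⟨h6, h7⟩, ?_⟩
      rw [mem_filter, mem_Ioc]
      refine ⟨⟨?_, ?_⟩, h3⟩
      · rcases h4.lt_or_eq with h8 | h8
        · exact h8
        · exfalso
          have h9 : ¬ (Nat.sqrt q ^ 2).Prime := Nat.Prime.not_prime_pow le_rfl
          rw [h8] at h9
          exact h9 h3
      · have : (Nat.sqrt q).succ ^ 2 = Nat.sqrt q ^ 2 + (2 * Nat.sqrt q + 1) := by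
          rw [Nat.succ_eq_add_one]; ring
        omega
    have h1 : (NB i : ℝ) ≤ ∑ m ∈ Ico p p', (((Ioc (m ^ 2) (m ^ 2 + (2 * m + 1))).filter Nat.Prime).card : ℝ) := by
      have h2 := (card_le_card hsub).trans card_biUnion_le
      have h3 : NB i ≤ ∑ m ∈ Ico p p', ((Ioc (m ^ 2) (m ^ 2 + (2 * m + 1))).filter Nat.Prime).card := h2
      exact_mod_cast h3
    have h2 : ∀ m ∈ Ico p p', (((Ioc (m ^ 2) (m ^ 2 + (2 * m + 1))).filter Nat.Prime).card : ℝ) ≤
        6 * C * (p / Real.log p) := by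
      intro m hm
      rw [mem_Ico] at hm
      have h3 := h (2 * m + 1) (m ^ 2) (by omega) (by nlinarith)
      refine h3.trans ?_
      have hm1 : (p : ℝ) ≤ m := by exact_mod_cast hm.1
      have hm2 : (m : ℝ) + 1 ≤ 2 * p := by
        have : m + 1 ≤ 2 * p := by omega
        exact_mod_cast this
      have hl : Real.log p ≤ Real.log ((2 * m + 1 : ℕ) : ℝ) := by
        apply Real.log_le_log (by linarith)
        push_cast
        linarith
      have hl0 : 0 < Real.log ((2 * m + 1 : ℕ) : ℝ) := lt_of_lt_of_le hlog hl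
      rw [← mul_div_assoc]
      apply div_le_div₀ (by positivity) _ hlog hl
      push_cast
      nlinarith
    have h3 : ∑ m ∈ Ico p p', (((Ioc (m ^ 2) (m ^ 2 + (2 * m + 1))).filter Nat.Prime).card : ℝ) ≤
        gp i * (6 * C * (p / Real.log p)) := by
      refine (sum_le_sum h2).trans ?_
      rw [sum_const, nsmul_eq_mul, Nat.card_Ico, Nat.cast_sub hpp.le]
      rw [hgap]
    calc (NB i : ℝ) ≤ gp i * (6 * C * (p / Real.log p)) := h1.trans h3
      _ = 6 * C * (p * gp i / Real.log p) := by ring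
      _ ≤ (6 * C + 4 * (X₀ + 3) ^ 2) * (p * gp i / Real.log p) := by
          apply mul_le_mul_of_nonneg_right _ (by linarith)
          have : (0 : ℝ) ≤ 4 * ((X₀ : ℝ) + 3) ^ 2 := by positivity
          linarith

/-- lower bound, if all `m` between the two primes are rich -/
theorem NB_low {c δ : ℝ} (hc : 0 < c) (hδ : 0 < δ) {i : ℕ}
    (h : ∀ m : ℕ, pr i ≤ m → m < pr (i + 1) → Rich c δ m) :
    c / 2 * (pr i * gp i / Real.log (pr i)) ≤ (NB i : ℝ) := by
  set p := pr i with hp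
  set p' := pr (i + 1) with hp'
  have hpp : p < p' := pr_mono (Nat.lt_succ_self i)
  have hp2 : p' ≤ 2 * p := pr_succ_le_two i
  have hp20 : 2 ≤ p := pr_two_le i
  have hp20' : (2 : ℝ) ≤ p := by exact_mod_cast hp20
  have hlog : 0 < Real.log p := Real.log_pos (by linarith)
  have hgap : gp i = (p' : ℝ) - p := rfl
  have hsub : (Ico p p').biUnion (fun m => primesIn (m ^ 2) m) ⊆ (Ioo (p ^ 2) (p' ^ 2)).filter Nat.Prime := by
    intro q hq
    rw [mem_biUnion] at hq
    obtain ⟨m, hm, hq⟩ := hq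
    rw [mem_Ico] at hm
    unfold primesIn at hq
    rw [mem_filter, mem_Ioc] at hq
    rw [mem_filter, mem_Ioo]
    refine ⟨⟨?_, ?_⟩, hq.2⟩
    · have : p ^ 2 ≤ m ^ 2 := Nat.pow_le_pow_left hm.1 2
      omega
    · have h1 : (m + 1) ^ 2 ≤ p' ^ 2 := Nat.pow_le_pow_left (by omega) 2
      have h2 : (m + 1) ^ 2 = m ^ 2 + m + (m + 1) := by ring
      omega
  have hdisj : ∀ m ∈ Ico p p', ∀ m' ∈ Ico p p', m ≠ m' → Disjoint (primesIn (m ^ 2) m) (primesIn (m' ^ 2) m') := by
    have key : ∀ m m' : ℕ, m < m' → Disjoint (primesIn (m ^ 2) m) (primesIn (m' ^ 2) m') := by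
      intro m m' hlt
      rw [disjoint_left]
      intro q hq hq'
      unfold primesIn at hq hq'
      rw [mem_filter, mem_Ioc] at hq hq'
      have h1 : (m + 1) ^ 2 ≤ m' ^ 2 := Nat.pow_le_pow_left (by omega) 2
      have h2 : (m + 1) ^ 2 = m ^ 2 + m + (m + 1) := by ring
      omega
    intro m _ m' _ hne
    rcases lt_or_gt_of_ne hne with h1 | h1
    · exact key m m' h1
    · exact (key m' m h1).symm
  have h1 : ∑ m ∈ Ico p p', ((primesIn (m ^ 2) m).card : ℝ) ≤ (NB i : ℝ) := by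
    have h2 := card_le_card hsub
    rw [card_biUnion hdisj] at h2
    exact_mod_cast h2
  refine le_trans ?_ h1
  have h2 : ∀ m ∈ Ico p p', c / 2 * (p / Real.log p) ≤ ((primesIn (m ^ 2) m).card : ℝ) := by
    intro m hm
    rw [mem_Ico] at hm
    have hm1 : (p : ℝ) ≤ m := by exact_mod_cast hm.1
    have hm2 : (m : ℝ) + 1 ≤ 2 * p := by
      have : m + 1 ≤ 2 * p := by omega
      exact_mod_cast this
    have hm0 : (1 : ℝ) ≤ m := by linarith
    have h3 := h m hm.1 hm.2 (m ^ 2) m (by omega) le_rfl (by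
      calc (m : ℝ) ^ (1 - δ) ≤ (m : ℝ) ^ (1 : ℝ) := Real.rpow_le_rpow_of_exponent_le hm0 (by linarith)
        _ = m := Real.rpow_one _)
    refine le_trans ?_ h3
    have hlm : Real.log m ≤ 2 * Real.log p := by
      have h4 : Real.log m ≤ Real.log ((p : ℝ) * p) := by
        apply Real.log_le_log (by linarith)
        nlinarith
      rw [Real.log_mul (by linarith) (by linarith)] at h4
      linarith
    have hlm0 : 0 < Real.log m := Real.log_pos (by linarith)
    rw [← mul_div_assoc, div_le_div_iff₀ hlog hlm0]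
    calc c / 2 * p * Real.log m ≤ c / 2 * p * (2 * Real.log p) := by gcongr
      _ = c * p * Real.log p := by ring
      _ ≤ c * m * Real.log p := by gcongr
  have h3 := sum_le_sum h2
  rw [sum_const, nsmul_eq_mul, Nat.card_Ico, Nat.cast_sub hpp.le] at h3
  calc c / 2 * (p * gp i / Real.log p) = ((p' : ℝ) - p) * (c / 2 * (p / Real.log p)) := by rw [hgap]; ring
    _ ≤ _ := h3

/-- few exceptions -/
theorem NB_few {c δ : ℝ} (hc : 0 < c) (hδ : 0 < δ)
    (hfew : ∀ K : ℝ, 1 ≤ K → ∃ N0 : ℕ, ∀ N : ℕ, N0 ≤ N →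
      K * (({n : ℕ | 1 ≤ n ∧ n ≤ N ∧ ¬ Rich c δ n}.ncard : ℕ) : ℝ) ≤ (N : ℝ) ^ (0.612 : ℝ)) (K : ℝ) (hK : 1 ≤ K) :
    ∃ X0 : ℝ, ∀ X : ℝ, X0 ≤ X →
      {i : ℕ | (pr i : ℝ) ≤ X ∧ (NB i : ℝ) < c / 2 * (pr i * gp i / Real.log (pr i))}.Finite ∧
      K * (({i : ℕ | (pr i : ℝ) ≤ X ∧ (NB i : ℝ) < c / 2 * (pr i * gp i / Real.log (pr i))}.ncard : ℕ) : ℝ) ≤
        X ^ (0.612 : ℝ) := by
  obtain ⟨N0, hN0⟩ := hfew (2 * K) (by linarith)
  refine ⟨max N0 1, fun X hX => ?_⟩
  have hX1 : 1 ≤ X := (le_max_right _ _).trans hX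
  have hXN : (N0 : ℝ) ≤ X := (le_max_left _ _).trans hX
  set E := {i : ℕ | (pr i : ℝ) ≤ X ∧ (NB i : ℝ) < c / 2 * (pr i * gp i / Real.log (pr i))} with hE
  have hfin : E.Finite := by
    refine (Set.finite_Iic ⌊X⌋₊).subset ?_
    intro i hi
    rw [Set.mem_Iic]
    apply Nat.le_floor
    refine le_trans ?_ hi.1
    exact_mod_cast self_le_pr i
  refine ⟨hfin, ?_⟩
  set N : ℕ := 2 * ⌊X⌋₊ with hN
  have hXfl : (⌊X⌋₊ : ℝ) ≤ X := Nat.floor_le (by linarith)
  have hfl1 : 1 ≤ ⌊X⌋₊ := Nat.le_floor (by exact_mod_cast hX1)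
  have hNN0 : N0 ≤ N := by
    have : N0 ≤ ⌊X⌋₊ := Nat.le_floor hXN
    omega
  have hbad : ∀ i ∈ E, ∃ m : ℕ, pr i ≤ m ∧ m < pr (i + 1) ∧ ¬ Rich c δ m := by
    intro i hi
    by_contra hcon
    push Not at hcon
    exact absurd (NB_low hc hδ hcon) (not_le.2 hi.2)
  choose! m hm1 hm2 hm3 using hbad
  set B := {n : ℕ | 1 ≤ n ∧ n ≤ N ∧ ¬ Rich c δ n} with hB
  have hBfin : B.Finite := (Set.finite_Iic N).subset (fun n hn => hn.2.1)
  have hcard : E.ncard ≤ B.ncard := by
    apply Set.ncard_le_ncard_of_injOn m _ _ hBfin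
    · intro i hi
      refine ⟨?_, ?_, hm3 i hi⟩
      · have := hm1 i hi
        have := pr_two_le i
        omega
      · have h1 := hm2 i hi
        have h2 := pr_succ_le_two i
        have h3 : pr i ≤ ⌊X⌋₊ := Nat.le_floor hi.1
        omega
    · intro i hi j hj he
      rcases lt_trichotomy i j with hlt | heq | hlt
      · have h1 := hm2 i hi
        have h2 := hm1 j hj
        have h3 : pr (i + 1) ≤ pr j := pr_mono.monotone hlt
        omega
      · exact heq
      · have h1 := hm2 j hj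
        have h2 := hm1 i hi
        have h3 : pr (j + 1) ≤ pr i := pr_mono.monotone hlt
        omega
  have h1 := hN0 N hNN0
  have h2 : (N : ℝ) ^ (0.612 : ℝ) ≤ 2 * X ^ (0.612 : ℝ) := by
    have h3 : (N : ℝ) ≤ 2 * X := by
      rw [hN]
      push_cast
      linarith
    calc (N : ℝ) ^ (0.612 : ℝ) ≤ (2 * X) ^ (0.612 : ℝ) := by gcongr
      _ = 2 ^ (0.612 : ℝ) * X ^ (0.612 : ℝ) := Real.mul_rpow (by norm_num) (by linarith)
      _ ≤ 2 * X ^ (0.612 : ℝ) := by
          gcongr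
          calc (2 : ℝ) ^ (0.612 : ℝ) ≤ 2 ^ (1 : ℝ) := Real.rpow_le_rpow_of_exponent_le (by norm_num) (by norm_num)
            _ = 2 := Real.rpow_one 2
  have h4 : (E.ncard : ℝ) ≤ B.ncard := by exact_mod_cast hcard
  have h5 : K * (E.ncard : ℝ) ≤ K * B.ncard := by gcongr
  linarith

end Pool.Agent.U766.OP
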