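import Mathlib
import Pool.Agent.U766.OP.Broc
import Pool.Agent.Y840.PT.Shift
import Pool.Agent.R527.LV.Core
import Pool.Agent.TH891.SG.Gal4

/-!
# Vectors of consecutive prime gaps in intervals with many primes: counting
-/

set_option autoImplicit false

namespace Pool.Agent.U766.OP

open Finset Filter Topology
open Pool.Agent.R527.LV (ps pat box mem_box ps_zero ps_succ pat_card)

open Classical in
/-- the primes `q = pr n` of `(a, a + H]` which are followed by the gaps `g 0, …, g (l - 1)` inside `(a, a + H]` -/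
noncomputable def Pos {l : ℕ} (g : Fin l → ℕ) (a H : ℕ) : Finset ℕ :=
  (Ioc a (a + H)).filter (fun q => ∃ n, pr n = q ∧ pr (n + l) ≤ a + H ∧
    ∀ i : Fin l, pr (n + i + 1) = pr (n + i) + g i)

lemma count_pr (n : ℕ) : Nat.count Nat.Prime (pr n) = n := Nat.count_nth_of_infinite Nat.infinite_setOfPred_prime n

lemma pr_count {q : ℕ} (hq : q.Prime) : pr (Nat.count Nat.Prime q) = q := Nat.nth_count hq

lemma pr_tele (n0 N : ℕ) (h : n0 ≤ N) : ∑ j ∈ Ico n0 N, (pr (j + 1) - pr j) + pr n0 = pr N := by
  induction N, h using Nat.le_induction with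
  | base => simp
  | succ N hN ih =>
    rw [Finset.sum_Ico_succ_top hN]
    have h1 := pr_mono (Nat.lt_succ_self N)
    rw [Nat.succ_eq_add_one] at h1
    omega

/-- long gaps are rare -/
lemma long_gaps (m a H n0 n1 : ℕ) (h0 : a < pr n0) (h1 : ∀ n, n < n1 → pr n ≤ a + H) :
    ((Ico n0 (n1 - 1)).filter (fun j => m < pr (j + 1) - pr j)).card ≤ H / (m + 1) := by
  rw [Nat.le_div_iff_mul_le (by omega)]
  have e1 : ((Ico n0 (n1 - 1)).filter (fun j => m < pr (j + 1) - pr j)).card * (m + 1) ≤
      ∑ j ∈ Ico n0 (n1 - 1), (pr (j + 1) - pr j) := by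
    calc _ ≤ ∑ j ∈ (Ico n0 (n1 - 1)).filter (fun j => m < pr (j + 1) - pr j), (pr (j + 1) - pr j) := by
          rw [← smul_eq_mul]
          apply Finset.card_nsmul_le_sum
          intro j hj
          exact (mem_filter.1 hj).2
      _ ≤ _ := Finset.sum_le_sum_of_subset (filter_subset _ _)
  refine e1.trans ?_
  by_cases hlt : n0 < n1 - 1
  · have e2 := pr_tele n0 (n1 - 1) hlt.le
    have := h1 (n1 - 1) (by omega)
    omega
  · rw [Finset.Ico_eq_empty (by omega)]
    simp

lemma gap_count (l m a H : ℕ) :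
    (primesIn a H).card ≤ l + l * (H / (m + 1)) + ∑ g ∈ box l m, (Pos g a H).card := by
  classical
  set n0 := Nat.count Nat.Prime (a + 1) with hn0
  set n1 := Nat.count Nat.Prime (a + H + 1) with hn1
  have hge : ∀ n, n0 ≤ n → a < pr n := by
    intro n hn
    by_contra hcon
    have h1 : Nat.count Nat.Prime (pr n + 1) ≤ n0 := Nat.count_monotone _ (by omega)
    rw [Nat.count_succ, count_pr, if_pos (pr_prime n)] at h1
    omega
  have hle : ∀ n, n < n1 → pr n ≤ a + H := by
    intro n hn
    have := Nat.nth_lt_of_lt_count hn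
    unfold pr
    omega
  have hcard : (primesIn a H).card = n1 - n0 := by
    have h1 : primesIn a H = (Ico n0 n1).image pr := by
      ext q
      rw [mem_image]
      unfold primesIn
      rw [mem_filter, mem_Ioc]
      constructor
      · rintro ⟨⟨h2, h3⟩, hq⟩
        refine ⟨Nat.count Nat.Prime q, ?_, pr_count hq⟩
        rw [mem_Ico]
        refine ⟨Nat.count_monotone _ h2, ?_⟩
        have h4 : Nat.count Nat.Prime (q + 1) ≤ n1 := Nat.count_monotone _ (by omega)
        rw [Nat.count_succ, if_pos hq] at h4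
        omega
      · rintro ⟨n, hn, rfl⟩
        rw [mem_Ico] at hn
        exact ⟨⟨hge n hn.1, hle n hn.2⟩, pr_prime n⟩
    rw [h1, card_image_of_injective _ pr_mono.injective, Nat.card_Ico]
  set I := Ico n0 (n1 - l) with hI
  set gv : ℕ → Fin l → ℕ := fun n i => pr (n + i + 1) - pr (n + i) with hgv
  set Good := I.filter (fun n => gv n ∈ box l m) with hGood
  set Bad := I.filter (fun n => ¬ gv n ∈ box l m) with hBad
  have hsplit : Good.card + Bad.card = I.card := by
    rw [hGood, hBad, Finset.card_filter_add_card_filter_not]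
  have hIc : n1 - n0 ≤ l + I.card := by
    rw [hI, Nat.card_Ico]
    omega
  have hgap1 : ∀ n, 1 ≤ pr (n + 1) - pr n := by
    intro n
    have := pr_mono (Nat.lt_succ_self n)
    rw [Nat.succ_eq_add_one] at this
    omega
  set LL := (Ico n0 (n1 - 1)).filter (fun j => m < pr (j + 1) - pr j) with hLL
  have hLLc : LL.card ≤ H / (m + 1) := long_gaps m a H n0 n1 (hge n0 le_rfl) hle
  have hBadc : Bad.card ≤ l * (H / (m + 1)) := by
    have h1 : Bad ⊆ (univ : Finset (Fin l)).biUnion (fun i => (LL.filter (fun j => (i : ℕ) ≤ j)).image (fun j : ℕ => j - (i : ℕ))) := by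
      intro n hn
      rw [hBad, mem_filter] at hn
      obtain ⟨hnI, hnb⟩ := hn
      rw [mem_box] at hnb
      push Not at hnb
      obtain ⟨i, hi⟩ := hnb
      have hi' := hi (hgap1 _)
      rw [mem_biUnion]
      refine ⟨i, mem_univ _, ?_⟩
      rw [mem_image]
      rw [hI, mem_Ico] at hnI
      have hil := i.2
      refine ⟨n + i, ?_, by omega⟩
      rw [mem_filter, hLL, mem_filter, mem_Ico]
      exact ⟨⟨⟨by omega, by omega⟩, hi'⟩, by omega⟩
    calc Bad.card ≤ _ := card_le_card h1
      _ ≤ ∑ i : Fin l, ((LL.filter (fun j => (i : ℕ) ≤ j)).image (fun j : ℕ => j - (i : ℕ))).card := card_biUnion_le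
      _ ≤ ∑ _i : Fin l, LL.card := by
          apply Finset.sum_le_sum
          intro i _
          exact card_image_le.trans (card_le_card (filter_subset _ _))
      _ = l * LL.card := by rw [Finset.sum_const, card_univ, Fintype.card_fin, smul_eq_mul]
      _ ≤ l * (H / (m + 1)) := Nat.mul_le_mul_left _ hLLc
  have hGoodc : Good.card ≤ ∑ g ∈ box l m, (Pos g a H).card := by
    rw [Finset.card_eq_sum_card_fiberwise (s := Good) (f := gv) (t := box l m) (fun n hn => (mem_filter.1 hn).2)]
    apply Finset.sum_le_sum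
    intro g _
    apply Finset.card_le_card_of_injOn pr
    · intro n hn
      rw [mem_coe, mem_filter, hGood, mem_filter, hI, mem_Ico] at hn
      obtain ⟨⟨⟨h1, h2⟩, h3⟩, h4⟩ := hn
      unfold Pos
      rw [mem_coe, mem_filter, mem_Ioc]
      refine ⟨⟨hge n h1, hle n (by omega)⟩, n, rfl, hle (n + l) (by omega), fun i => ?_⟩
      rw [← h4]
      simp only [hgv]
      have := hgap1 (n + i)
      omega
    · exact fun x _ y _ h => pr_mono.injective h
  omega

/-- the terms of the pattern -/
lemma pos_terms {l : ℕ} {g : Fin l → ℕ} {n : ℕ} (h : ∀ i : Fin l, pr (n + i + 1) = pr (n + i) + g i) (i : Fin (l + 1)) :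
    pr (n + i) = pr n + ps g i := by
  induction i using Fin.induction with
  | zero => rw [ps_zero]; simp
  | succ i ih =>
    rw [ps_succ, Fin.val_succ]
    have h1 := h i
    rw [Fin.val_castSucc] at ih
    rw [← add_assoc, h1, ih]
    ring

lemma pos_prime {l : ℕ} {g : Fin l → ℕ} {a H q : ℕ} (hq : q ∈ Pos g a H) : ∀ t ∈ pat g, (q + t).Prime := by
  classical
  intro t ht
  unfold Pos at hq
  rw [mem_filter] at hq
  obtain ⟨-, n, rfl, -, h⟩ := hq
  unfold pat at ht
  rw [mem_image] at ht
  obtain ⟨i, -, rfl⟩ := ht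
  rw [← pos_terms h i]
  exact pr_prime _

open Pool.Agent.H387R2.Uni (CT nuT CT_nonneg) in
/-- the upper bound sieve -/
theorem pos_up (l : ℕ) : ∃ C : ℝ, 0 < C ∧ ∃ X₀ : ℕ, ∀ a H : ℕ, X₀ ≤ H → H ≤ a → ∀ g : Fin l → ℕ, (∀ i, 1 ≤ g i) →
    ((Pos g a H).card : ℝ) ≤ C * (CT (pat g) * (H / Real.log H ^ (l + 1))) := by
  classical
  obtain ⟨C, hC, X₀, h⟩ := Pool.Agent.Y840.PT.up (l + 1)
  refine ⟨C, hC, max X₀ (l + 1), fun a H hH hHa g hg => ?_⟩
  set T : Finset (ℕ × ℕ) := (pat g).map Pool.Agent.Y840.PT.sh with hT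
  have hTc : T.card = l + 1 := by rw [hT, card_map, pat_card hg]
  by_cases hadm : ∀ p : ℕ, p.Prime → Pool.Agent.W218.MU.w T p < p
  · have h1 := h H a ((le_max_left _ _).trans hH) (by omega) T (Pool.Agent.Y840.PT.prim_sh _) hTc hadm
    rw [hT, Pool.Agent.Y840.PT.SL_sh] at h1
    refine le_trans ?_ h1
    rw [Nat.cast_le]
    apply card_le_card
    intro q hq
    rw [mem_filter]
    refine ⟨(mem_filter.1 (by unfold Pos at hq; exact hq)).1, fun L hL => ?_⟩
    rw [Finset.mem_map] at hL
    obtain ⟨t, ht, rfl⟩ := hL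
    have := pos_prime hq t ht
    show (1 * q + t).Prime
    rwa [one_mul]
  · push Not at hadm
    obtain ⟨p, hp, hpw⟩ := hadm
    rw [hT, Pool.Agent.Y840.PT.w_sh _ hp.pos] at hpw
    have hempty : Pos g a H = ∅ := by
      rw [Finset.eq_empty_iff_forall_notMem]
      intro q hq
      have himg : (pat g).image (· % p) = range p := by
        apply Finset.eq_of_subset_of_card_le
        · intro r hr
          rw [mem_image] at hr
          obtain ⟨t, _, rfl⟩ := hr
          exact mem_range.2 (Nat.mod_lt _ hp.pos)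
        · rw [card_range]
          exact hpw
      have hpl : p ≤ l + 1 := by
        have h2 : ((pat g).image (· % p)).card ≤ (pat g).card := card_image_le
        rw [himg, card_range, pat_card hg] at h2
        exact h2
      have h3 : (p - q % p) % p ∈ (pat g).image (· % p) := by
        rw [himg]
        exact mem_range.2 (Nat.mod_lt _ hp.pos)
      rw [mem_image] at h3
      obtain ⟨t, ht, h4⟩ := h3
      have h5 : p ∣ q + t := by
        have h6 : q % p < p := Nat.mod_lt _ hp.pos
        rw [Nat.dvd_iff_mod_eq_zero, Nat.add_mod, h4, Nat.add_mod_mod, Nat.add_sub_cancel' h6.le, Nat.mod_self]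
      have h6 := (Nat.prime_dvd_prime_iff_eq hp (pos_prime hq t ht)).1 h5
      have h7 := (mem_Ioc.1 (mem_filter.1 (by unfold Pos at hq; exact hq)).1).1
      have h8 : l + 1 ≤ H := (le_max_right _ _).trans hH
      omega
    rw [hempty, card_empty, Nat.cast_zero]
    have h1 := CT_nonneg (pat g)
    have h2 : 0 ≤ Real.log (H : ℝ) := Real.log_natCast_nonneg H
    positivity

end Pool.Agent.U766.OP
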