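import Mathlib
import Pool.Agent.U766.OP.Gap

/-!
# Vectors of consecutive prime gaps in intervals with many primes: a positive proportion of all the vectors, and
progressions
-/

set_option autoImplicit false

namespace Pool.Agent.U766.OP

open Finset Filter Topology
open Pool.Agent.R527.LV (ps pat box mem_box card_box ps_zero ps_succ pat_card)
open Pool.Agent.H387R2.Uni (CT nuT CT_nonneg)

theorem box_many (l : ℕ) (c1 : ℝ) (hc1 : 0 < c1) : ∃ K c M η : ℝ, 0 < K ∧ 0 < c ∧ 0 < M ∧ 0 < η ∧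
    ∀ᶠ x : ℝ in atTop, ∀ a H : ℕ, x ≤ a → (H : ℝ) ≤ x → Real.sqrt x ≤ H →
      c1 * H / Real.log x ≤ ((primesIn a H).card : ℝ) →
      η * Real.log x ^ l ≤ (((box l ⌊K * Real.log x⌋₊).filter (fun g =>
        c * H / Real.log x ^ (l + 1) ≤ ((Pos g a H).card : ℝ) ∧ CT (pat g) ≤ M)).card : ℝ) := by
  classical
  obtain ⟨C, hC, X₀, hup⟩ := pos_up l
  obtain ⟨C₂, hC₂, hmom⟩ := Pool.Agent.TH891.SG.CT_mom l 2
  obtain ⟨K, hK⟩ : ∃ K : ℝ, K = 4 * l / c1 + 1 := ⟨_, rfl⟩
  have hl0 : (0 : ℝ) ≤ l := Nat.cast_nonneg l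
  have hK1 : 1 ≤ K := by
    rw [hK]
    have : 0 ≤ 4 * (l : ℝ) / c1 := by positivity
    linarith
  have hK0 : 0 < K := by linarith
  have hlK : (l : ℝ) ≤ c1 / 4 * K := by
    rw [hK]
    have e : c1 / 4 * (4 * (l : ℝ) / c1 + 1) = l + c1 / 4 := by field_simp
    rw [e]
    linarith
  obtain ⟨C', hC'⟩ : ∃ C' : ℝ, C' = C * 2 ^ (l + 1) := ⟨_, rfl⟩
  have hC'0 : 0 < C' := by rw [hC']; positivity
  obtain ⟨C₃, hC₃⟩ : ∃ C₃ : ℝ, C₃ = C₂ * 2 ^ (l + 1) * (l * K + 1) ^ l := ⟨_, rfl⟩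
  have hC₃0 : 0 < C₃ := by rw [hC₃]; positivity
  obtain ⟨c, hc⟩ : ∃ c : ℝ, c = c1 / (8 * K ^ l) := ⟨_, rfl⟩
  have hc0 : 0 < c := by rw [hc]; positivity
  obtain ⟨M, hM⟩ : ∃ M : ℝ, M = 8 * C' * C₃ / c1 := ⟨_, rfl⟩
  have hM0 : 0 < M := by rw [hM]; positivity
  refine ⟨K, c, M, c1 / 4 / (C' * M), hK0, hc0, hM0, by positivity, ?_⟩
  have t1 : Tendsto (fun x : ℝ => Real.sqrt x) atTop atTop := Real.tendsto_sqrt_atTop
  have t2 : ∀ᶠ x : ℝ in atTop, l * Real.log x * (4 / c1) ≤ Real.sqrt x := by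
    have h := (isLittleO_log_rpow_atTop (show (0 : ℝ) < 1 / 2 by norm_num)).bound
      (show (0 : ℝ) < 1 / (l * (4 / c1) + 1) by positivity)
    filter_upwards [h, eventually_ge_atTop 1] with x hx hx1
    rw [Real.norm_of_nonneg (Real.log_nonneg hx1), Real.norm_of_nonneg (by positivity), ← Real.sqrt_eq_rpow] at hx
    have hpos : (0 : ℝ) < l * (4 / c1) + 1 := by positivity
    have h1 : Real.log x * (l * (4 / c1) + 1) ≤ Real.sqrt x := by
      calc Real.log x * (l * (4 / c1) + 1) ≤ (1 / (l * (4 / c1) + 1) * Real.sqrt x) * (l * (4 / c1) + 1) := by gcongr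
        _ = Real.sqrt x := by field_simp
    have h2 : 0 ≤ Real.log x := Real.log_nonneg hx1
    nlinarith
  filter_upwards [t2, t1.eventually_ge_atTop (X₀ : ℝ), eventually_ge_atTop 16, Real.tendsto_log_atTop.eventually_ge_atTop 2]
    with x h2 h3 h16 hL2 a H ha hHx hH hN
  obtain ⟨L, hL⟩ : ∃ L : ℝ, L = Real.log x := ⟨_, rfl⟩
  rw [← hL] at hN hL2 h2 ⊢
  have hL0 : 0 < L := by linarith
  have hx0 : 0 < x := by linarith
  have hH4 : 4 ≤ (H : ℝ) := by
    have : 4 ≤ Real.sqrt x := by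
      rw [show (4 : ℝ) = Real.sqrt 16 by rw [show (16 : ℝ) = 4 ^ 2 by norm_num]; exact (Real.sqrt_sq (by norm_num)).symm]
      exact Real.sqrt_le_sqrt h16
    linarith
  have hH0 : (0 : ℝ) < H := by linarith
  have hHa : H ≤ a := by exact_mod_cast hHx.trans ha
  have hX₀H : X₀ ≤ H := by exact_mod_cast h3.trans hH
  have hlogH : L / 2 ≤ Real.log H := by
    have h4 : Real.log (Real.sqrt x) ≤ Real.log H := Real.log_le_log (Real.sqrt_pos.2 hx0) hH
    rw [Real.log_sqrt hx0.le, ← hL] at h4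
    exact h4
  set m : ℕ := ⌊K * L⌋₊ with hm
  have hm1 : K * L < (m : ℝ) + 1 := Nat.lt_floor_add_one _
  have hm2 : (m : ℝ) ≤ K * L := Nat.floor_le (by positivity)
  obtain ⟨V, hV⟩ : ∃ V : ℝ, V = H / L ^ (l + 1) := ⟨_, rfl⟩
  have hV0 : 0 < V := by rw [hV]; positivity
  have hVL : V * L ^ l = H / L := by
    rw [hV, pow_succ]
    field_simp
  -- the sum over all vectors
  have hsum : c1 / 2 * (V * L ^ l) ≤ ∑ g ∈ box l m, ((Pos g a H).card : ℝ) := by
    have e1 : ((primesIn a H).card : ℝ) ≤ l + l * ((H / (m + 1) : ℕ) : ℝ) + ∑ g ∈ box l m, ((Pos g a H).card : ℝ) := by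
      exact_mod_cast gap_count l m a H
    have e2 : ((H / (m + 1) : ℕ) : ℝ) ≤ (H : ℝ) / (m + 1) := by
      have := @Nat.cast_div_le ℝ _ _ _ H (m + 1)
      push_cast at this
      exact this
    have e3 : (l : ℝ) * ((H / (m + 1) : ℕ) : ℝ) ≤ c1 / 4 * (H / L) := by
      calc (l : ℝ) * ((H / (m + 1) : ℕ) : ℝ) ≤ l * ((H : ℝ) / (K * L)) := by
            apply mul_le_mul_of_nonneg_left _ hl0
            refine e2.trans ?_
            apply div_le_div_of_nonneg_left hH0.le (by positivity) hm1.le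
        _ ≤ (c1 / 4 * K) * ((H : ℝ) / (K * L)) := by gcongr
        _ = c1 / 4 * (H / L) := by field_simp
    have e4 : (l : ℝ) ≤ c1 / 4 * (H / L) := by
      have h5 : l * L * (4 / c1) ≤ H := h2.trans hH
      have h6 : (l : ℝ) = c1 / 4 * ((l * L * (4 / c1)) / L) := by field_simp
      rw [h6]
      gcongr
    have e5 : c1 * H / L = c1 * (H / L) := by ring
    rw [e5] at hN
    rw [hVL]
    linarith
  have hpt : ∀ g ∈ box l m, ((Pos g a H).card : ℝ) ≤ C' * V * CT (pat g) := by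
    intro g hg
    have h5 := hup a H hX₀H hHa g (fun i => ((mem_box.1 hg) i).1)
    refine h5.trans ?_
    have hCT := CT_nonneg (pat g)
    have h6 : (H : ℝ) / Real.log H ^ (l + 1) ≤ 2 ^ (l + 1) * V := by
      have hlH0 : 0 < Real.log H := by linarith
      rw [hV, ← mul_div_assoc, div_le_div_iff₀ (pow_pos hlH0 _) (by positivity)]
      have h7 : L ^ (l + 1) ≤ 2 ^ (l + 1) * Real.log H ^ (l + 1) := by
        rw [← mul_pow]
        apply pow_le_pow_left₀ hL0.le
        linarith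
      calc (H : ℝ) * L ^ (l + 1) ≤ H * (2 ^ (l + 1) * Real.log H ^ (l + 1)) := by gcongr
        _ = _ := by ring
    calc C * (CT (pat g) * (H / Real.log H ^ (l + 1))) ≤ C * (CT (pat g) * (2 ^ (l + 1) * V)) := by gcongr
      _ = C' * V * CT (pat g) := by rw [hC']; ring
  have hmomb : ∑ g ∈ box l m, CT (pat g) ^ 2 ≤ C₃ * L ^ l := by
    have h5 := Pool.Agent.R527.LV.mom l C₂ hmom m
    refine h5.trans ?_
    have h6 : (((l * m + 1 : ℕ) : ℝ)) ^ l ≤ (l * K + 1) ^ l * L ^ l := by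
      rw [← mul_pow]
      apply pow_le_pow_left₀ (Nat.cast_nonneg _)
      push_cast
      have h7 : (l : ℝ) * m ≤ l * (K * L) := by gcongr
      nlinarith
    calc C₂ * 2 ^ (l + 1) * (((l * m + 1 : ℕ) : ℝ)) ^ l ≤ C₂ * 2 ^ (l + 1) * ((l * K + 1) ^ l * L ^ l) := by gcongr
      _ = C₃ * L ^ l := by rw [hC₃]; ring
  set G := (box l m).filter (fun g => c * H / L ^ (l + 1) ≤ ((Pos g a H).card : ℝ) ∧ CT (pat g) ≤ M) with hG
  have hcV : c * H / L ^ (l + 1) = c * V := by rw [hV]; ring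
  have hnot : ∑ g ∈ (box l m).filter (fun g => ¬ (c * H / L ^ (l + 1) ≤ ((Pos g a H).card : ℝ) ∧ CT (pat g) ≤ M)),
      ((Pos g a H).card : ℝ) ≤ c1 / 4 * (V * L ^ l) := by
    calc _ ≤ ∑ g ∈ (box l m).filter (fun g => ¬ (c * H / L ^ (l + 1) ≤ ((Pos g a H).card : ℝ) ∧ CT (pat g) ≤ M)),
          (c * V + C' * V / M * CT (pat g) ^ 2) := by
          apply Finset.sum_le_sum
          intro g hg
          rw [mem_filter, hcV] at hg
          obtain ⟨hgb, hg2⟩ := hg
          have hCT := CT_nonneg (pat g)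
          by_cases h5 : c * V ≤ ((Pos g a H).card : ℝ)
          · have h6 : M < CT (pat g) := by
              by_contra hcon
              exact hg2 ⟨h5, not_lt.1 hcon⟩
            have h7 := hpt g hgb
            have h8 : C' * V * CT (pat g) ≤ C' * V / M * CT (pat g) ^ 2 := by
              rw [div_mul_eq_mul_div, le_div_iff₀ hM0]
              have h9 : CT (pat g) * M ≤ CT (pat g) * CT (pat g) := by gcongr
              have h10 := mul_le_mul_of_nonneg_left h9 (show 0 ≤ C' * V by positivity)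
              nlinarith
            have h9 : 0 < c * V := by positivity
            linarith
          · have h6 : 0 ≤ C' * V / M * CT (pat g) ^ 2 := by positivity
            linarith
      _ ≤ ∑ g ∈ box l m, (c * V + C' * V / M * CT (pat g) ^ 2) := by
          apply Finset.sum_le_sum_of_subset_of_nonneg (filter_subset _ _)
          intro g _ _
          positivity
      _ = (m : ℝ) ^ l * (c * V) + C' * V / M * ∑ g ∈ box l m, CT (pat g) ^ 2 := by
          rw [Finset.sum_add_distrib, Finset.sum_const, card_box, nsmul_eq_mul, ← Finset.mul_sum]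
          push_cast
          ring
      _ ≤ (K * L) ^ l * (c * V) + C' * V / M * (C₃ * L ^ l) := by gcongr
      _ = c1 / 4 * (V * L ^ l) := by
          rw [mul_pow, hc, hM]
          field_simp
          ring
  have hGs : ∑ g ∈ G, ((Pos g a H).card : ℝ) ≤ G.card * (C' * V * M) := by
    rw [← nsmul_eq_mul]
    apply Finset.sum_le_card_nsmul
    intro g hg
    rw [hG, mem_filter] at hg
    refine (hpt g hg.1).trans ?_
    have := hg.2.2
    gcongr
  have htot : ∑ g ∈ G, ((Pos g a H).card : ℝ) +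
      ∑ g ∈ (box l m).filter (fun g => ¬ (c * H / L ^ (l + 1) ≤ ((Pos g a H).card : ℝ) ∧ CT (pat g) ≤ M)),
        ((Pos g a H).card : ℝ) = ∑ g ∈ box l m, ((Pos g a H).card : ℝ) :=
    Finset.sum_filter_add_sum_filter_not _ _ _
  have hfin : c1 / 4 * (V * L ^ l) ≤ G.card * (C' * V * M) := by linarith
  rw [div_mul_eq_mul_div, div_le_iff₀ (by positivity)]
  have h5 : V * (c1 / 4 * L ^ l) ≤ V * ((G.card : ℝ) * (C' * M)) := by nlinarith
  exact le_of_mul_le_mul_left h5 hV0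

theorem pos_ap (l k : ℕ) (c M ρ : ℝ) (hc : 0 < c) (hM : 0 < M) (hρ : 0 < ρ) : ∃ B : ℕ, ∀ᶠ x : ℝ in atTop,
    ∀ a H : ℕ, x ≤ a → (H : ℝ) ≤ x → Real.sqrt x ≤ H → ∀ g : Fin l → ℕ, (∀ i, 1 ≤ g i) → CT (pat g) ≤ M →
      c * H / Real.log x ^ (l + 1) ≤ ((Pos g a H).card : ℝ) →
      ∀ U ⊆ Pos g a H, ρ * ((Pos g a H).card : ℝ) ≤ (U.card : ℝ) →
        Pool.Agent.Y840.PT.AP k (Real.log x ^ B) U := by
  classical
  obtain ⟨C, hC, X₁, hup⟩ := pos_up l
  obtain ⟨B, X₀, h⟩ := Pool.Agent.Y840.PT.sh_gen k (l + 1) (1 / 2) (ρ * c / (M * 2 ^ (l + 1))) (by norm_num)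
    (by positivity)
  refine ⟨B, ?_⟩
  have t1 : Tendsto (fun x : ℝ => Real.sqrt x) atTop atTop := Real.tendsto_sqrt_atTop
  filter_upwards [t1.eventually_ge_atTop (X₀ : ℝ), t1.eventually_ge_atTop (X₁ : ℝ), eventually_ge_atTop 16,
    Real.tendsto_log_atTop.eventually_ge_atTop 2]
    with x h3 h3' h16 hL2 a H ha hHx hH g hg hCTM hcount U hU hUc
  obtain ⟨L, hL⟩ : ∃ L : ℝ, L = Real.log x := ⟨_, rfl⟩
  rw [← hL] at hL2 hcount ⊢
  have hL0 : 0 < L := by linarith
  have hx0 : 0 < x := by linarith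
  have hH4 : 4 ≤ (H : ℝ) := by
    have : 4 ≤ Real.sqrt x := by
      rw [show (4 : ℝ) = Real.sqrt 16 by rw [show (16 : ℝ) = 4 ^ 2 by norm_num]; exact (Real.sqrt_sq (by norm_num)).symm]
      exact Real.sqrt_le_sqrt h16
    linarith
  have hH0 : (0 : ℝ) < H := by linarith
  have hHa : H ≤ a := by exact_mod_cast hHx.trans ha
  have hX₀H : X₀ ≤ H := by exact_mod_cast h3.trans hH
  have hX₁H : X₁ ≤ H := by exact_mod_cast h3'.trans hH
  have hlogH : L / 2 ≤ Real.log H := by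
    have h4 : Real.log (Real.sqrt x) ≤ Real.log H := Real.log_le_log (Real.sqrt_pos.2 hx0) hH
    rw [Real.log_sqrt hx0.le, ← hL] at h4
    exact h4
  have hlogH2 : Real.log H ≤ L := by rw [hL]; exact Real.log_le_log hH0 hHx
  have hpos : 0 < CT (pat g) := by
    rcases (CT_nonneg (pat g)).eq_or_lt with h5 | h5
    · exfalso
      have h6 := hup a H hX₁H hHa g hg
      rw [← h5, zero_mul, mul_zero] at h6
      have h7 : 0 < c * H / L ^ (l + 1) := by positivity
      linarith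
    · exact h5
  have hAP := h H a hX₀H (pat g) (pat_card hg) hpos U
    (fun q hq => (mem_filter.1 (by have := hU hq; unfold Pos at this; exact this)).1) (by
      intro n hn t ht p hp hd
      have hpr := pos_prime (hU hn) t ht
      have h5 := (Nat.prime_dvd_prime_iff_eq hp hpr).1 hd
      have h6 := (mem_Ioc.1 (mem_filter.1 (by have := hU hn; unfold Pos at this; exact this)).1).1
      rw [h5]
      have h7 : (H : ℝ) ^ (1 / 2 : ℝ) ≤ H := by
        calc (H : ℝ) ^ (1 / 2 : ℝ) ≤ (H : ℝ) ^ (1 : ℝ) :=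
              Real.rpow_le_rpow_of_exponent_le (by linarith) (by norm_num)
          _ = H := Real.rpow_one _
      have h8 : ((H : ℕ) : ℝ) < ((n + t : ℕ) : ℝ) := by exact_mod_cast (by omega : H < n + t)
      linarith) (by
      have h6 : (H : ℝ) / Real.log H ^ (l + 1) ≤ 2 ^ (l + 1) * (H / L ^ (l + 1)) := by
        have hlH0 : 0 < Real.log H := by linarith
        rw [← mul_div_assoc, div_le_div_iff₀ (pow_pos hlH0 _) (by positivity)]
        have h7 : L ^ (l + 1) ≤ 2 ^ (l + 1) * Real.log H ^ (l + 1) := by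
          rw [← mul_pow]
          apply pow_le_pow_left₀ hL0.le
          linarith
        calc (H : ℝ) * L ^ (l + 1) ≤ H * (2 ^ (l + 1) * Real.log H ^ (l + 1)) := by gcongr
          _ = _ := by ring
      calc ρ * c / (M * 2 ^ (l + 1)) * (CT (pat g) * (H / Real.log H ^ (l + 1)))
          ≤ ρ * c / (M * 2 ^ (l + 1)) * (M * (2 ^ (l + 1) * (H / L ^ (l + 1)))) := by gcongr
        _ = ρ * (c * H / L ^ (l + 1)) := by field_simp
        _ ≤ ρ * ((Pos g a H).card : ℝ) := by gcongr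
        _ ≤ U.card := hUc)
  exact hAP.mono (pow_le_pow_left₀ (by linarith) hlogH2 B)

end Pool.Agent.U766.OP
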