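import Mathlib
import Pool.Agent.U766.OP.Gap2
import Pool.Agent.U766.OP.Exa
import Pool.Agent.Q278.KT.Fin
import Pool.Agent.N524.Szem

/-!
# The same vectors of consecutive prime gaps in the windows of the members of a configuration
-/

set_option autoImplicit false

namespace Pool.Agent.U766.OP

open Finset Filter Topology
open Pool.Agent.R527.LV (pat box mem_box card_box)
open Pool.Agent.H387R2.Uni (CT)

/-- every dense subset of `[N, 2 N]`, `N` large, contains a member of the family -/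
def DensityRegular (𝓕 : Set (Finset ℕ)) : Prop :=
  ∀ ρ : ℝ, 0 < ρ → ∃ N₀ : ℕ, ∀ N : ℕ, N₀ ≤ N → ∀ A : Finset ℕ, A ⊆ Icc N (2 * N) → ρ * N ≤ (A.card : ℝ) →
    ∃ F ∈ 𝓕, F ⊆ A

/-- Szemerédi's theorem -/
theorem ap_regular (k : ℕ) :
    DensityRegular {F | ∃ a d : ℕ, 1 ≤ d ∧ F = (range k).image (fun j => a + j * d)} := by
  classical
  intro ρ hρ
  obtain ⟨s0, hs0⟩ := Pool.Agent.N524.szem_abs (G := ℤ) (fun s => Icc (-(s : ℤ)) s) 2 (by norm_num)
    (by
      intro s t hst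
      apply Finset.Icc_subset_Icc <;> omega)
    (by
      intro v
      refine ⟨v.natAbs, fun s u hu => ?_⟩
      rw [mem_Icc] at hu ⊢
      push_cast
      have h1 := abs_le.1 (le_refl |v|)
      have h2 : ((v.natAbs : ℕ) : ℤ) = |v| := Int.natCast_natAbs v
      constructor <;> omega)
    (by
      intro K
      refine ⟨K, fun s hs => ?_⟩
      rw [Int.card_Icc, Int.card_Icc]
      have h1 : ((((s + K : ℕ) : ℤ) + 1 - -((s + K : ℕ) : ℤ)).toNat : ℝ) = 2 * (s + K) + 1 := by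
        have : (((s + K : ℕ) : ℤ) + 1 - -((s + K : ℕ) : ℤ)).toNat = 2 * (s + K) + 1 := by omega
        rw [this]
        push_cast
        ring
      have h2 : (((s : ℤ) + 1 - -(s : ℤ)).toNat : ℝ) = 2 * s + 1 := by
        have : ((s : ℤ) + 1 - -(s : ℤ)).toNat = 2 * s + 1 := by omega
        rw [this]
        push_cast
        ring
      rw [h1, h2]
      have h3 : (K : ℝ) ≤ s := by exact_mod_cast hs
      linarith)
    (by
      intro s
      exact ⟨0, by rw [mem_Icc]; omega⟩)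
    ((range k).image (fun j : ℕ => (j : ℤ))) (ρ / 5) (by positivity)
  refine ⟨s0 + 1, fun N hN A hA hAc => ?_⟩
  have hN1 : (1 : ℝ) ≤ N := by exact_mod_cast (by omega : 1 ≤ N)
  obtain ⟨a, j, hj, hw⟩ := hs0 (2 * N) (by omega) (A.image (fun n : ℕ => (n : ℤ))) (by
      intro z hz
      rw [mem_image] at hz
      obtain ⟨n, hn, rfl⟩ := hz
      have := mem_Icc.1 (hA hn)
      rw [mem_Icc]
      push_cast
      omega) (by
      rw [card_image_of_injective _ Nat.cast_injective, Int.card_Icc]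
      have h2 : ((((2 * N : ℕ) : ℤ) + 1 - -((2 * N : ℕ) : ℤ)).toNat : ℝ) = 4 * N + 1 := by
        have : (((2 * N : ℕ) : ℤ) + 1 - -((2 * N : ℕ) : ℤ)).toNat = 4 * N + 1 := by omega
        rw [this]
        push_cast
        ring
      rw [h2]
      have h3 : ρ / 5 * (4 * (N : ℝ) + 1) ≤ ρ / 5 * (5 * N) := by gcongr; linarith
      linarith)
  rcases Nat.eq_zero_or_pos k with hk | hk
  · subst hk
    exact ⟨_, ⟨0, 1, le_rfl, rfl⟩, by simp⟩
  · have h0 := hw 0 (mem_image.2 ⟨0, mem_range.2 hk, rfl⟩)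
    rw [smul_zero, add_zero, mem_image] at h0
    obtain ⟨n, hn, hna⟩ := h0
    refine ⟨(range k).image (fun i => n + i * j), ⟨n, j, hj, rfl⟩, fun z hz => ?_⟩
    rw [mem_image] at hz
    obtain ⟨i, hi, rfl⟩ := hz
    have h1 := hw (i : ℤ) (mem_image.2 ⟨i, hi, rfl⟩)
    rw [mem_image] at h1
    obtain ⟨n', hn', h2⟩ := h1
    have h3 : n' = n + i * j := by
      have : (n' : ℤ) = ((n + i * j : ℕ) : ℤ) := by
        rw [h2, ← hna, nsmul_eq_mul]
        push_cast
        ring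
      exact_mod_cast this
    rw [← h3]
    exact hn'

/-- popular elements -/
lemma popular {ι : Type} [DecidableEq ι] (A : Finset ℕ) (hA : A.Nonempty) (B : Finset ι) (G : ℕ → Finset ι)
    (hG : ∀ n ∈ A, G n ⊆ B) (e b : ℝ) (he : 0 ≤ e) (hb : 0 < b) (hB : (B.card : ℝ) ≤ b)
    (hGe : ∀ n ∈ A, e ≤ ((G n).card : ℝ)) :
    e / 2 ≤ ((B.filter (fun g => e / (2 * b) * A.card ≤ ((A.filter (fun n => g ∈ G n)).card : ℝ))).card : ℝ) := by
  classical
  have hA0 : (0 : ℝ) < A.card := by exact_mod_cast hA.card_pos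
  set S := B.filter (fun g => e / (2 * b) * A.card ≤ ((A.filter (fun n => g ∈ G n)).card : ℝ)) with hS
  have h1 : ∑ n ∈ A, (G n).card = ∑ g ∈ B, (A.filter (fun n => g ∈ G n)).card := by
    have h2 := Finset.sum_card_bipartiteAbove_eq_sum_card_bipartiteBelow (s := A) (t := B) (fun n g => g ∈ G n)
    unfold Finset.bipartiteAbove Finset.bipartiteBelow at h2
    rw [← h2]
    apply Finset.sum_congr rfl
    intro n hn
    congr 1
    ext g
    rw [mem_filter]
    exact ⟨fun h => ⟨hG n hn h, h⟩, fun h => h.2⟩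
  have h2 : (A.card : ℝ) * e ≤ ∑ n ∈ A, ((G n).card : ℝ) := by
    rw [← nsmul_eq_mul]
    exact Finset.card_nsmul_le_sum _ _ _ hGe
  have h3 : ∑ g ∈ B, ((A.filter (fun n => g ∈ G n)).card : ℝ) ≤ S.card * A.card + b * (e / (2 * b) * A.card) := by
    rw [← Finset.sum_filter_add_sum_filter_not B
      (fun g => e / (2 * b) * A.card ≤ ((A.filter (fun n => g ∈ G n)).card : ℝ))]
    apply add_le_add
    · rw [← nsmul_eq_mul]
      apply Finset.sum_le_card_nsmul
      intro g _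
      exact_mod_cast card_le_card (filter_subset _ _)
    · calc _ ≤ ∑ _g ∈ B.filter (fun g => ¬ e / (2 * b) * A.card ≤ ((A.filter (fun n => g ∈ G n)).card : ℝ)),
            e / (2 * b) * A.card := by
            apply Finset.sum_le_sum
            intro g hg
            exact (not_le.1 (mem_filter.1 hg).2).le
        _ ≤ ∑ _g ∈ B, e / (2 * b) * A.card := by
            apply Finset.sum_le_sum_of_subset_of_nonneg (filter_subset _ _)
            intro g _ _
            positivity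
        _ = B.card * (e / (2 * b) * A.card) := by rw [Finset.sum_const, nsmul_eq_mul]
        _ ≤ b * (e / (2 * b) * A.card) := by gcongr
  have h4 : b * (e / (2 * b) * A.card) = e / 2 * A.card := by field_simp
  have h5 : ∑ n ∈ A, ((G n).card : ℝ) = ∑ g ∈ B, ((A.filter (fun n => g ∈ G n)).card : ℝ) := by exact_mod_cast h1
  have h6 : e / 2 * A.card ≤ S.card * A.card := by
    rw [h4] at h3
    linarith
  exact le_of_mul_le_mul_right h6 hA0

lemma succ_pow_le (m n : ℕ) (hn : 2 * m ≤ n) (hn1 : 1 ≤ n) : ((n + 1 : ℕ) : ℝ) ^ m ≤ 2 * (n : ℝ) ^ m := by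
  have hn0 : (0 : ℝ) < n := by exact_mod_cast hn1
  have h1 : ((n + 1 : ℕ) : ℝ) = n * (1 / n + 1) := by push_cast; field_simp; ring
  rw [h1, mul_pow, mul_comm]
  apply mul_le_mul_of_nonneg_right _ (by positivity)
  calc (1 / (n : ℝ) + 1) ^ m ≤ (Real.exp (1 / n)) ^ m := by
        apply pow_le_pow_left₀ (by positivity)
        exact Real.add_one_le_exp _
    _ = Real.exp (m / n) := by
        rw [← Real.exp_nat_mul]
        congr 1
        ring
    _ ≤ Real.exp (1 / 2) := by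
        apply Real.exp_le_exp.2
        rw [div_le_div_iff₀ hn0 (by norm_num)]
        have : 2 * (m : ℝ) ≤ n := by exact_mod_cast hn
        linarith
    _ ≤ 2 := by
        have h2 : Real.exp (1 / 2) ^ 2 = Real.exp 1 := by
          rw [← Real.exp_nat_mul]
          norm_num
        have h3 := Real.exp_one_lt_d9
        nlinarith [Real.exp_pos (1 / 2 : ℝ)]

theorem same_patterns (m l : ℕ) (hm : 1 ≤ m) : ∃ K c η δ : ℝ, 0 < K ∧ 0 < c ∧ 0 < η ∧ 0 < δ ∧ δ ≤ 0.01 ∧
    ∀ 𝓕 : Set (Finset ℕ), DensityRegular 𝓕 → ∀ ρ : ℝ, 0 < ρ → ∃ N₀ : ℕ, ∀ N : ℕ, N₀ ≤ N →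
      ∀ A : Finset ℕ, A ⊆ Icc N (2 * N) → ρ * N ≤ (A.card : ℝ) → ∀ a H : ℕ → ℕ,
        (∀ n ∈ A, n ^ m ≤ a n ∧ a n + H n ≤ (n + 1) ^ m ∧ ((n : ℝ) ^ m) ^ (0.615 - δ) ≤ H n) →
        ∃ G : Finset (Fin l → ℕ), η * Real.log N ^ l ≤ (G.card : ℝ) ∧ ∀ g ∈ G,
          (∀ i, 1 ≤ g i ∧ (g i : ℝ) ≤ K * Real.log N) ∧
          ∃ F ∈ 𝓕, F ⊆ A ∧ ∀ n ∈ F, c * H n / Real.log N ^ (l + 1) ≤ ((Pos g (a n) (H n)).card : ℝ) := by
  classical
  obtain ⟨c1, δ, hc1, hδ, hδ1, hall⟩ := all_long Pool.Agent.Q278.KT.mainp_043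
    (by norm_num) (by norm_num) (by norm_num) (by norm_num)
  obtain ⟨K, c, M, η, hK, hc, hM, hη, hbox⟩ := box_many l c1 hc1
  have hm0 : (0 : ℝ) < m := by exact_mod_cast hm
  refine ⟨2 * K * m, c / (2 * m) ^ (l + 1), η * m ^ l / 2, δ, by positivity, by positivity, by positivity, hδ, hδ1,
    fun 𝓕 h𝓕 ρ hρ => ?_⟩
  obtain ⟨τ, hτ⟩ : ∃ τ : ℝ, τ = η / (2 * (2 * K) ^ l) := ⟨_, rfl⟩
  have hτ0 : 0 < τ := by rw [hτ]; positivity
  obtain ⟨N1, hN1⟩ := h𝓕 (τ * ρ) (by positivity)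
  obtain ⟨X0, hX0⟩ := eventually_atTop.1 (hall.and (hbox.and (eventually_ge_atTop 1)))
  refine ⟨max N1 (max ⌈X0⌉₊ (max (2 * m) 3)), fun N hN A hA hAc a H haH => ?_⟩
  have hNN1 : N1 ≤ N := (le_max_left _ _).trans hN
  have hNX : ⌈X0⌉₊ ≤ N := ((le_max_left _ _).trans (le_max_right _ _)).trans hN
  have hNm : 2 * m ≤ N := (((le_max_left _ _).trans (le_max_right _ _)).trans (le_max_right _ _)).trans hN
  have hN3 : 3 ≤ N := (((le_max_right _ _).trans (le_max_right _ _)).trans (le_max_right _ _)).trans hN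
  have hN3' : (3 : ℝ) ≤ N := by exact_mod_cast hN3
  have hN0 : (0 : ℝ) < N := by linarith
  have hlog1 : 1 ≤ Real.log N := by
    rw [Real.le_log_iff_exp_le hN0]
    have := Real.exp_one_lt_d9
    linarith
  have hA0 : A.Nonempty := by
    rw [← Finset.card_pos]
    have : (0 : ℝ) < A.card := lt_of_lt_of_le (by positivity) hAc
    exact_mod_cast this
  -- the members of `A`
  have hmem : ∀ n ∈ A, X0 ≤ (n : ℝ) ^ m ∧ Real.log N ≤ Real.log n ∧ Real.log n ≤ 2 * Real.log N ∧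
      ((n + 1 : ℕ) : ℝ) ^ m ≤ 2 * (n : ℝ) ^ m ∧ 1 ≤ n := by
    intro n hn
    have h1 := mem_Icc.1 (hA hn)
    have hnN : (N : ℝ) ≤ n := by exact_mod_cast h1.1
    have hn2N : (n : ℝ) ≤ 2 * N := by exact_mod_cast h1.2
    have hn1 : (1 : ℝ) ≤ n := by linarith
    refine ⟨?_, Real.log_le_log hN0 hnN, ?_, succ_pow_le m n (by omega) (by omega), by omega⟩
    · calc X0 ≤ (⌈X0⌉₊ : ℝ) := Nat.le_ceil _
        _ ≤ N := by exact_mod_cast hNX
        _ ≤ n := hnN
        _ = (n : ℝ) ^ 1 := (pow_one _).symm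
        _ ≤ (n : ℝ) ^ m := pow_le_pow_right₀ hn1 hm
    · calc Real.log n ≤ Real.log (2 * N) := Real.log_le_log (by linarith) hn2N
        _ = Real.log 2 + Real.log N := Real.log_mul (by norm_num) hN0.ne'
        _ ≤ 2 * Real.log N := by
          have : Real.log 2 ≤ Real.log N := Real.log_le_log (by norm_num) (by linarith)
          linarith
  obtain ⟨G, hG⟩ : ∃ G : ℕ → Finset (Fin l → ℕ), G = fun n : ℕ => (box l ⌊K * Real.log ((n : ℝ) ^ m)⌋₊).filter (fun g =>
        c * H n / Real.log ((n : ℝ) ^ m) ^ (l + 1) ≤ ((Pos g (a n) (H n)).card : ℝ) ∧ CT (pat g) ≤ M) := ⟨_, rfl⟩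
  obtain ⟨B, hB⟩ : ∃ B : Finset (Fin l → ℕ), B = box l ⌊2 * K * m * Real.log N⌋₊ := ⟨_, rfl⟩
  have hGB : ∀ n ∈ A, G n ⊆ B := by
    intro n hn g hg
    obtain ⟨-, h2, h3, -, -⟩ := hmem n hn
    rw [hG, mem_filter, mem_box] at hg
    rw [hB, mem_box]
    intro i
    refine ⟨(hg.1 i).1, (hg.1 i).2.trans (Nat.floor_le_floor ?_)⟩
    rw [Real.log_pow]
    calc K * (m * Real.log n) ≤ K * (m * (2 * Real.log N)) := by gcongr
      _ = 2 * K * m * Real.log N := by ring
  have hBc : (B.card : ℝ) ≤ (2 * K * m * Real.log N) ^ l := by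
    rw [hB, card_box]
    push_cast
    exact pow_le_pow_left₀ (Nat.cast_nonneg _) (Nat.floor_le (by positivity)) _
  have hGe : ∀ n ∈ A, η * (m * Real.log N) ^ l ≤ ((G n).card : ℝ) := by
    intro n hn
    obtain ⟨h1, h2, h3, h4, h5⟩ := hmem n hn
    obtain ⟨h6, h7, h8⟩ := haH n hn
    obtain ⟨e1, e2, e3⟩ := hX0 _ h1
    have ha : (n : ℝ) ^ m ≤ a n := by exact_mod_cast h6
    have haH2 : (a n : ℝ) + H n ≤ 2 * (n : ℝ) ^ m := by
      refine le_trans ?_ h4
      exact_mod_cast h7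
    have hHx : (H n : ℝ) ≤ (n : ℝ) ^ m := by linarith
    have hsq : Real.sqrt ((n : ℝ) ^ m) ≤ H n := by
      refine le_trans ?_ h8
      rw [Real.sqrt_eq_rpow]
      exact Real.rpow_le_rpow_of_exponent_le e3 (by linarith)
    have hN' : c1 * H n / Real.log ((n : ℝ) ^ m) ≤ ((primesIn (a n) (H n)).card : ℝ) := by
      have h9 := e1 (a n) (H n) ha (by linarith) (by
        rw [show (1 : ℝ) - 0.43 + 0.045 - δ = 0.615 - δ by norm_num]
        exact h8)
      rwa [pic_nat] at h9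
    have h10 := e2 (a n) (H n) ha hHx hsq hN'
    rw [hG]
    refine le_trans ?_ h10
    rw [Real.log_pow]
    gcongr
  have hpop := popular A hA0 B G hGB (η * (m * Real.log N) ^ l) ((2 * K * m * Real.log N) ^ l) (by positivity)
    (by positivity) hBc hGe
  refine ⟨_, le_trans (le_of_eq ?_) hpop, fun g hg => ?_⟩
  · rw [mul_pow]
    ring
  · rw [mem_filter] at hg
    obtain ⟨hgB, hg2⟩ := hg
    have hτe : η * (m * Real.log N) ^ l / (2 * (2 * K * m * Real.log N) ^ l) = τ := by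
      rw [hτ, show 2 * K * m * Real.log N = (2 * K) * (m * Real.log N) by ring, mul_pow (2 * K)]
      have : 0 < (m * Real.log N) ^ l := by positivity
      field_simp
    rw [hτe] at hg2
    obtain ⟨F, hF𝓕, hFA⟩ := hN1 N hNN1 (A.filter (fun n => g ∈ G n)) ((filter_subset _ _).trans hA) (by
      calc τ * ρ * N = τ * (ρ * N) := by ring
        _ ≤ τ * A.card := by gcongr
        _ ≤ _ := hg2)
    refine ⟨fun i => ?_, F, hF𝓕, hFA.trans (filter_subset _ _), fun n hn => ?_⟩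
    · rw [hB, mem_box] at hgB
      refine ⟨(hgB i).1, ?_⟩
      have h1 : (g i : ℝ) ≤ (⌊2 * K * m * Real.log N⌋₊ : ℝ) := by exact_mod_cast (hgB i).2
      exact h1.trans (Nat.floor_le (by positivity))
    · have h1 := mem_filter.1 (hFA hn)
      obtain ⟨-, h2, h3, -, -⟩ := hmem n h1.1
      have h4 := h1.2
      rw [hG, mem_filter] at h4
      refine le_trans ?_ h4.2.1
      rw [Real.log_pow]
      have h5 : 0 < Real.log n := by linarith
      rw [div_mul_eq_mul_div, div_div, div_le_div_iff₀ (by positivity) (by positivity)]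
      have h6 : (m * Real.log n) ^ (l + 1) ≤ (2 * m) ^ (l + 1) * Real.log N ^ (l + 1) := by
        rw [← mul_pow]
        apply pow_le_pow_left₀ (by positivity)
        nlinarith
      gcongr

end Pool.Agent.U766.OP
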